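import Pool.Agent.helper5.Cusp.Pull

set_option autoImplicit false

namespace Pool.Agent.helper5.Cusp

open MvPolynomial

/-- `n` simple preimages of `c` under the Chebyshev polynomial -/
lemma cheb_preimages (n : ℕ) (hn : 0 < n) (c : ℝ) (hc : |c| < 1) :
    ∃ ξ : Fin n → ℝ, Function.Injective ξ ∧
      ∀ i, (Polynomial.Chebyshev.T ℝ (n : ℤ)).eval (ξ i) = c ∧
        (Polynomial.derivative (Polynomial.Chebyshev.T ℝ (n : ℤ))).eval (ξ i) ≠ 0 := by
  have hn' : (0 : ℝ) < n := by exact_mod_cast hn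
  obtain ⟨hc1, hc2⟩ := abs_lt.mp hc
  set θ := Real.arccos c with hθ
  have hcos : Real.cos θ = c := Real.cos_arccos hc1.le hc2.le
  have hθ0 : 0 < θ := Real.arccos_pos.mpr hc2
  have hθ1 : θ < Real.pi := by
    rcases lt_or_eq_of_le (Real.arccos_le_pi c) with h | h
    · exact h
    · exfalso
      have : Real.cos θ = -1 := by rw [hθ, h, Real.cos_pi]
      rw [hcos] at this
      linarith
  set ψ : ℕ → ℝ := fun j => if Even j then (j : ℝ) * Real.pi + θ else ((j : ℝ) + 1) * Real.pi - θ
    with hψ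
  have hψ1 : ∀ j : ℕ, (j : ℝ) * Real.pi < ψ j ∧ ψ j < ((j : ℝ) + 1) * Real.pi := by
    intro j
    simp only [hψ]
    split_ifs
    · constructor <;> nlinarith
    · constructor <;> nlinarith
  have hψ2 : ∀ j : ℕ, Real.cos (ψ j) = c := by
    intro j
    simp only [hψ]
    split_ifs with h
    · obtain ⟨m, rfl⟩ := h
      have : ((m + m : ℕ) : ℝ) * Real.pi + θ = θ + (m : ℝ) * (2 * Real.pi) := by
        push_cast; ring
      rw [this, Real.cos_add_nat_mul_two_pi, hcos]
    · obtain ⟨m, rfl⟩ := Nat.not_even_iff_odd.mp h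
      have : (((2 * m + 1 : ℕ) : ℝ) + 1) * Real.pi - θ = ((m + 1 : ℕ) : ℝ) * (2 * Real.pi) - θ := by
        push_cast; ring
      rw [this, Real.cos_nat_mul_two_pi_sub, hcos]
  have hmono : ∀ j k : ℕ, j < k → ψ j < ψ k := by
    intro j k hjk
    have h1 := (hψ1 j).2
    have h2 := (hψ1 k).1
    have h3 : ((j : ℝ) + 1) * Real.pi ≤ (k : ℝ) * Real.pi := by
      apply mul_le_mul_of_nonneg_right _ Real.pi_pos.le
      exact_mod_cast hjk
    linarith
  have hrange : ∀ i : Fin n, 0 < ψ i / n ∧ ψ i / n < Real.pi := by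
    intro i
    constructor
    · apply div_pos _ hn'
      have := (hψ1 i).1
      have h0 : (0 : ℝ) ≤ (i : ℕ) * Real.pi := by positivity
      linarith
    · rw [div_lt_iff₀ hn']
      have := (hψ1 i).2
      have h3 : (((i : ℕ) : ℝ) + 1) * Real.pi ≤ (n : ℝ) * Real.pi := by
        apply mul_le_mul_of_nonneg_right _ Real.pi_pos.le
        exact_mod_cast i.2
      linarith
  refine ⟨fun i => Real.cos (ψ i / n), ?_, ?_⟩
  · intro i j hij
    have hij' : ψ i / n = ψ j / n :=
      Real.injOn_cos ⟨(hrange i).1.le, (hrange i).2.le⟩ ⟨(hrange j).1.le, (hrange j).2.le⟩ hij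
    have hij2 : ψ i = ψ j := by
      field_simp at hij'
      exact hij'
    rcases lt_trichotomy (i : ℕ) (j : ℕ) with h | h | h
    · exact absurd hij2 (ne_of_lt (hmono _ _ h))
    · exact Fin.ext h
    · exact absurd hij2.symm (ne_of_lt (hmono _ _ h))
  · intro i
    have hmul : (n : ℝ) * (ψ i / n) = ψ i := by field_simp
    constructor
    · rw [Polynomial.Chebyshev.T_real_cos]
      push_cast
      rw [hmul, hψ2]
    · intro h0
      rw [Polynomial.Chebyshev.T_derivative_eq_U] at h0
      have h1 := Polynomial.Chebyshev.U_real_cos (ψ i / n) ((n : ℤ) - 1)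
      rw [Polynomial.eval_mul] at h0
      have h2 : (((n : ℤ) : Polynomial ℝ)).eval (Real.cos (ψ i / n)) = (n : ℝ) := by simp
      rw [h2] at h0
      have h3 : (Polynomial.Chebyshev.U ℝ ((n : ℤ) - 1)).eval (Real.cos (ψ i / n)) = 0 := by
        rcases mul_eq_zero.mp h0 with h | h
        · exact absurd h hn'.ne'
        · exact h
      rw [h3, zero_mul] at h1
      push_cast at h1
      have h4 : ((n : ℝ) - 1 + 1) * (ψ i / n) = ψ i := by rw [sub_add_cancel]; exact hmul
      rw [h4] at h1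
      have h5 := Real.sin_sq_add_cos_sq (ψ i)
      rw [← h1, hψ2] at h5
      have : c ^ 2 < 1 := by
        rw [sq_lt_one_iff_abs_lt_one]; exact hc
      linarith

lemma totalDegree_aeval_X (i : Fin 2) (u : Polynomial ℝ) :
    (Polynomial.aeval (X i : MvPolynomial (Fin 2) ℝ) u).totalDegree ≤ u.natDegree := by
  rw [Polynomial.aeval_eq_sum_range]
  apply totalDegree_finsetSum_le
  intro j hj
  refine (totalDegree_smul_le _ _).trans ?_
  rw [totalDegree_X_pow]
  exact Nat.lt_succ_iff.mp (Finset.mem_range.mp hj)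

lemma totalDegree_pull {P : Type} [Fintype P] (e1 e2 : P → ℕ) (a : P → ℝ)
    (g1 g2 : Polynomial ℝ) (n D : ℕ) (h1 : g1.natDegree ≤ n) (h2 : g2.natDegree ≤ n)
    (hD : ∀ p, e1 p + e2 p ≤ D) : (pull e1 e2 a g1 g2).totalDegree ≤ D * n := by
  unfold pull
  apply totalDegree_finsetSum_le
  intro p _
  refine (totalDegree_mul _ _).trans ?_
  rw [totalDegree_C, zero_add]
  unfold sep
  refine (totalDegree_mul _ _).trans ?_
  have k1 := (totalDegree_aeval_X 0 (g1 ^ e1 p)).trans (Polynomial.natDegree_pow_le_of_le _ h1)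
  have k2 := (totalDegree_aeval_X 1 (g2 ^ e2 p)).trans (Polynomial.natDegree_pow_le_of_le _ h2)
  have k3 := Nat.mul_le_mul_right n (hD p)
  nlinarith

lemma eval_aeval_left (f : MvPolynomial (Fin 2) ℝ) (x y : ℝ) :
    (MvPolynomial.aeval ![Polynomial.X, Polynomial.C y] f : Polynomial ℝ).eval x =
      MvPolynomial.eval ![x, y] f := by
  induction f using MvPolynomial.induction_on with
  | C a => simp
  | add p q hp hq => rw [map_add, Polynomial.eval_add, hp, hq, map_add]
  | mul_X p i hp =>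
    rw [map_mul, Polynomial.eval_mul, hp, map_mul]
    fin_cases i <;> simp

lemma eval_aeval_right (f : MvPolynomial (Fin 2) ℝ) (x y : ℝ) :
    (MvPolynomial.aeval ![Polynomial.C x, Polynomial.X] f : Polynomial ℝ).eval y =
      MvPolynomial.eval ![x, y] f := by
  induction f using MvPolynomial.induction_on with
  | C a => simp
  | add p q hp hq => rw [map_add, Polynomial.eval_add, hp, hq, map_add]
  | mul_X p i hp =>
    rw [map_mul, Polynomial.eval_mul, hp, map_mul]
    fin_cases i <;> simp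

lemma derivative_aeval_left (f : MvPolynomial (Fin 2) ℝ) (y : ℝ) :
    Polynomial.derivative (MvPolynomial.aeval ![Polynomial.X, Polynomial.C y] f : Polynomial ℝ) =
      MvPolynomial.aeval ![Polynomial.X, Polynomial.C y] (pderiv 0 f) := by
  induction f using MvPolynomial.induction_on with
  | C a => simp
  | add p q hp hq => simp only [map_add, hp, hq]
  | mul_X p i hp =>
    rw [map_mul, Polynomial.derivative_mul, hp, Derivation.leibniz]
    fin_cases i <;> simp [pderiv_X] <;> ring

lemma derivative_aeval_right (f : MvPolynomial (Fin 2) ℝ) (x : ℝ) :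
    Polynomial.derivative (MvPolynomial.aeval ![Polynomial.C x, Polynomial.X] f : Polynomial ℝ) =
      MvPolynomial.aeval ![Polynomial.C x, Polynomial.X] (pderiv 1 f) := by
  induction f using MvPolynomial.induction_on with
  | C a => simp
  | add p q hp hq => simp only [map_add, hp, hq]
  | mul_X p i hp =>
    rw [map_mul, Polynomial.derivative_mul, hp, Derivation.leibniz]
    fin_cases i <;> simp [pderiv_X] <;> ring

/-- a polynomial with a grid of cusps has large degree -/
lemma le_totalDegree {P : Type} [Fintype P] (e1 e2 : P → ℕ) (a : P → ℝ)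
    (g1 g2 : Polynomial ℝ) (n : ℕ) (hn : 0 < n) (ξ η : Fin n → ℝ)
    (hξ : Function.Injective ξ) (hη : Function.Injective η)
    (h : ∀ i j, CuspAt (pull e1 e2 a g1 g2) ![ξ i, η j]) :
    n ≤ (pull e1 e2 a g1 g2).totalDegree := by
  by_contra hlt
  push Not at hlt
  set f := pull e1 e2 a g1 g2 with hf
  set i0 : Fin n := ⟨0, hn⟩
  have hdeg1 : (MvPolynomial.aeval ![Polynomial.X, Polynomial.C (η i0)] f :
      Polynomial ℝ).natDegree < n := by
    refine lt_of_le_of_lt (MvPolynomial.aeval_natDegree_le (n := 1) f le_rfl _ ?_) (by omega)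
    intro i
    fin_cases i <;> simp
  have hdeg2 : (MvPolynomial.aeval ![Polynomial.C (ξ i0), Polynomial.X] f :
      Polynomial ℝ).natDegree < n := by
    refine lt_of_le_of_lt (MvPolynomial.aeval_natDegree_le (n := 1) f le_rfl _ ?_) (by omega)
    intro i
    fin_cases i <;> simp
  have z1 : (MvPolynomial.aeval ![Polynomial.X, Polynomial.C (η i0)] f : Polynomial ℝ) = 0 := by
    apply Polynomial.eq_zero_of_natDegree_lt_card_of_eval_eq_zero _ hξ
    · intro i
      rw [eval_aeval_left]
      exact (h i i0).1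
    · simpa using hdeg1
  have z2 : (MvPolynomial.aeval ![Polynomial.C (ξ i0), Polynomial.X] f : Polynomial ℝ) = 0 := by
    apply Polynomial.eq_zero_of_natDegree_lt_card_of_eval_eq_zero _ hη
    · intro i
      rw [eval_aeval_right]
      exact (h i0 i).1
    · simpa using hdeg2
  have f00 : MvPolynomial.eval ![ξ i0, η i0] (pderiv 0 (pderiv 0 f)) = 0 := by
    rw [← eval_aeval_left, ← derivative_aeval_left, ← derivative_aeval_left, z1]
    simp
  have f11 : MvPolynomial.eval ![ξ i0, η i0] (pderiv 1 (pderiv 1 f)) = 0 := by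
    rw [← eval_aeval_right, ← derivative_aeval_right, ← derivative_aeval_right, z2]
    simp
  have fcomm : MvPolynomial.eval ![ξ i0, η i0] (pderiv 0 (pderiv 1 f)) =
      MvPolynomial.eval ![ξ i0, η i0] (pderiv 1 (pderiv 0 f)) := by
    rw [hf]
    unfold pull
    rw [pderiv1_sum_sep, pderiv0_sum_sep, pderiv0_sum_sep, pderiv1_sum_sep]
  obtain ⟨-, -, ⟨i, j, hij⟩, v, hv, hH, -⟩ := h i0 i0
  have h0 := hH 0
  have h1 := hH 1
  rw [Fin.sum_univ_two] at h0 h1
  rw [f00, zero_mul, zero_add] at h0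
  rw [f11, zero_mul, add_zero, ← fcomm] at h1
  have hb : MvPolynomial.eval ![ξ i0, η i0] (pderiv 0 (pderiv 1 f)) = 0 := by
    by_contra hne
    apply hv
    funext k
    fin_cases k
    · exact (mul_eq_zero.mp h1).resolve_left hne
    · exact (mul_eq_zero.mp h0).resolve_left hne
  apply hij
  fin_cases i <;> fin_cases j
  · exact f00
  · exact hb
  · show MvPolynomial.eval ![ξ i0, η i0] (pderiv 1 (pderiv 0 f)) = 0
    rw [← fcomm]; exact hb
  · exact f11

/-- real points of the torus at which the polynomial with exponents `e1, e2` and coefficients `a`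
has a cusp, more than `D ^ 2 / 4` of them, violate the asymptotic bound `1/4`. -/
theorem not_bound {P K : Type} [Fintype P] [Fintype K] (e1 e2 : P → ℕ) (a : P → ℝ) (D : ℕ)
    (hD : ∀ p, e1 p + e2 p ≤ D) (x y : K → ℝ) (hx : ∀ k, x k ≠ 0) (hy : ∀ k, y k ≠ 0)
    (hinj : ∀ k k', x k = x k' → y k = y k' → k = k')
    (hm : ∀ k, MomentCusp (fun p => (e1 p : ℝ)) (fun p => (e2 p : ℝ))
      (fun p => a p * x k ^ e1 p * y k ^ e2 p))
    (hcard : D ^ 2 < 4 * Fintype.card K) :
    ¬ (∀ ε : ℝ, 0 < ε → ∃ N : ℕ, ∀ d : ℕ, N ≤ d →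
      ∀ f : MvPolynomial (Fin 2) ℝ, f.totalDegree = d →
      ∀ S : Finset (Fin 2 → ℝ), (∀ p ∈ S, CuspAt f p) →
        (S.card : ℝ) ≤ (1 / 4 + ε) * (d : ℝ) ^ 2) := by
  classical
  intro H
  obtain ⟨N, hN⟩ := H (1 / (8 * ((D : ℝ) ^ 2 + 1))) (by positivity)
  have hK : 0 < Fintype.card K := by
    rcases Nat.eq_zero_or_pos (Fintype.card K) with h | h
    · rw [h] at hcard; omega
    · exact h
  obtain ⟨k0⟩ : Nonempty K := Fintype.card_pos_iff.mp hK
  -- scaling
  set A : ℝ := 1 + ∑ k, |x k| with hA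
  set B : ℝ := 1 + ∑ k, |y k| with hB
  have hApos : 0 < A := by positivity
  have hBpos : 0 < B := by positivity
  have hxA : ∀ k, |x k / A| < 1 := by
    intro k
    rw [abs_div, abs_of_pos hApos, div_lt_one hApos]
    have := Finset.single_le_sum (f := fun k => |x k|) (fun i _ => abs_nonneg _)
      (Finset.mem_univ k)
    linarith
  have hyB : ∀ k, |y k / B| < 1 := by
    intro k
    rw [abs_div, abs_of_pos hBpos, div_lt_one hBpos]
    have := Finset.single_le_sum (f := fun k => |y k|) (fun i _ => abs_nonneg _)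
      (Finset.mem_univ k)
    linarith
  set n := N + 1 with hn
  have hnpos : 0 < n := Nat.succ_pos _
  choose ξ hξ hξ' using fun k => cheb_preimages n hnpos _ (hxA k)
  choose η hη hη' using fun k => cheb_preimages n hnpos _ (hyB k)
  set g1 : Polynomial ℝ := Polynomial.C A * Polynomial.Chebyshev.T ℝ (n : ℤ) with hg1
  set g2 : Polynomial ℝ := Polynomial.C B * Polynomial.Chebyshev.T ℝ (n : ℤ) with hg2
  have hTdeg : (Polynomial.Chebyshev.T ℝ (n : ℤ)).natDegree = n := by
    rw [Polynomial.Chebyshev.natDegree_T]; simp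
  have hd1 : g1.natDegree ≤ n := by
    rw [hg1]
    exact (Polynomial.natDegree_C_mul_le _ _).trans hTdeg.le
  have hd2 : g2.natDegree ≤ n := by
    rw [hg2]
    exact (Polynomial.natDegree_C_mul_le _ _).trans hTdeg.le
  have hcusp : ∀ k i j, CuspAt (pull e1 e2 a g1 g2) ![ξ k i, η k j] := by
    intro k i j
    apply cuspAt_pull e1 e2 a g1 g2 _ (x k) (y k) (hx k) (hy k)
    · show g1.eval (ξ k i) = x k
      rw [hg1, Polynomial.eval_mul, Polynomial.eval_C, (hξ' k i).1]
      field_simp
    · show g2.eval (η k j) = y k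
      rw [hg2, Polynomial.eval_mul, Polynomial.eval_C, (hη' k j).1]
      field_simp
    · show (Polynomial.derivative g1).eval (ξ k i) ≠ 0
      rw [hg1, Polynomial.derivative_C_mul, Polynomial.eval_mul, Polynomial.eval_C]
      exact mul_ne_zero hApos.ne' (hξ' k i).2
    · show (Polynomial.derivative g2).eval (η k j) ≠ 0
      rw [hg2, Polynomial.derivative_C_mul, Polynomial.eval_mul, Polynomial.eval_C]
      exact mul_ne_zero hBpos.ne' (hη' k j).2
    · exact hm k
  have hdegU := totalDegree_pull e1 e2 a g1 g2 n D hd1 hd2 hD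
  have hdegL := le_totalDegree e1 e2 a g1 g2 n hnpos (ξ k0) (η k0) (hξ k0) (hη k0) (hcusp k0)
  set f := pull e1 e2 a g1 g2 with hf
  -- the point set
  let φ : K × Fin n × Fin n → (Fin 2 → ℝ) := fun t => ![ξ t.1 t.2.1, η t.1 t.2.2]
  have hφ : Function.Injective φ := by
    rintro ⟨k, i, j⟩ ⟨k', i', j'⟩ h
    have e0 : ξ k i = ξ k' i' := congrFun h 0
    have e1' : η k j = η k' j' := congrFun h 1
    have hk : k = k' := by
      apply hinj
      · have h1 := (hξ' k i).1
        have h2 := (hξ' k' i').1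
        rw [e0, h2] at h1
        field_simp at h1
        exact h1.symm
      · have h1 := (hη' k j).1
        have h2 := (hη' k' j').1
        rw [e1', h2] at h1
        field_simp at h1
        exact h1.symm
    subst hk
    rw [hξ k e0, hη k e1']
  have hfin := hN f.totalDegree (by omega) f rfl (Finset.univ.image φ) (by
    intro p hp
    obtain ⟨⟨k, i, j⟩, -, rfl⟩ := Finset.mem_image.mp hp
    exact hcusp k i j)
  rw [Finset.card_image_of_injective _ hφ, Finset.card_univ, Fintype.card_prod,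
    Fintype.card_prod, Fintype.card_fin] at hfin
  have hd' : (f.totalDegree : ℝ) ≤ D * n := by exact_mod_cast hdegU
  have hd2' : (f.totalDegree : ℝ) ^ 2 ≤ (D * n) ^ 2 := by
    apply pow_le_pow_left₀ (Nat.cast_nonneg _) hd'
  have hcard' : (D : ℝ) ^ 2 + 1 ≤ 4 * Fintype.card K := by exact_mod_cast hcard
  have hn2 : (0 : ℝ) < (n : ℝ) ^ 2 := by positivity
  push_cast at hfin
  have h8 : (1 / 4 + 1 / (8 * ((D : ℝ) ^ 2 + 1))) * (f.totalDegree : ℝ) ^ 2 ≤
      (1 / 4 + 1 / (8 * ((D : ℝ) ^ 2 + 1))) * (D * n) ^ 2 := by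
    apply mul_le_mul_of_nonneg_left hd2' (by positivity)
  have h9 : (1 / 4 + 1 / (8 * ((D : ℝ) ^ 2 + 1))) * ((D : ℝ) * n) ^ 2 <
      (Fintype.card K : ℝ) * (n : ℝ) ^ 2 := by
    have h10 : (1 / 4 + 1 / (8 * ((D : ℝ) ^ 2 + 1))) * ((D : ℝ)) ^ 2 < (Fintype.card K : ℝ) := by
      have h11 : 1 / (8 * ((D : ℝ) ^ 2 + 1)) * (D : ℝ) ^ 2 ≤ 1 / 8 := by
        rw [div_mul_eq_mul_div, one_mul, div_le_div_iff₀ (by positivity) (by norm_num)]
        nlinarith
      nlinarith
    calc _ = ((1 / 4 + 1 / (8 * ((D : ℝ) ^ 2 + 1))) * ((D : ℝ)) ^ 2) * (n : ℝ) ^ 2 := by ring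
      _ < _ := mul_lt_mul_of_pos_right h10 hn2
  have h12 : (Fintype.card K : ℝ) * ((n : ℝ) * n) = (Fintype.card K : ℝ) * (n : ℝ) ^ 2 := by ring
  linarith

end Pool.Agent.helper5.Cusp
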