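import Pool.Agent.helper5.Cusp.Data
import Pool.Agent.helper5.Cusp.Reduce

set_option autoImplicit false

namespace Pool.Agent.helper5.Cusp

/-- the tile of a given type -/
noncomputable def tauc (c : ℕ) : Tile := if c = 0 then tileQ else if c = 1 then tile5 else tile6

lemma tauc_m (c : ℕ) (hc : c < 3) : (tauc c).m + 3 = 2 * c + 5 := by
  interval_cases c <;> rfl

lemma tauc_r (c : ℕ) (hc : c < 3) : (tauc c).r = c + 1 := by
  interval_cases c <;> rfl

lemma tauc_qx (c : ℕ) (hc : c < 3) (i : Fin ((tauc c).m + 3)) : (tauc c).qx i = RX c i.val := by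
  interval_cases c
  · change Fin 5 at i
    fin_cases i <;> rfl
  · change Fin 7 at i
    fin_cases i <;> rfl
  · change Fin 9 at i
    fin_cases i <;> rfl

lemma tauc_qy (c : ℕ) (hc : c < 3) (i : Fin ((tauc c).m + 3)) : (tauc c).qy i = RY c i.val := by
  interval_cases c
  · change Fin 5 at i
    fin_cases i <;> rfl
  · change Fin 7 at i
    fin_cases i <;> rfl
  · change Fin 9 at i
    fin_cases i <;> rfl

lemma signQ : ∀ i : Fin 5, (0 : ℝ) < (-1) ^ RS 0 i.val *
    (![-3, 4, 4, 1, -6] : Fin 5 → ℝ) i := by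
  intro i
  have r : ∀ j : Fin 5, RS 0 j.val = ![1, 0, 0, 0, 1] j := by decide
  rw [r]
  fin_cases i <;> norm_num

lemma sign5 : ∀ i : Fin 7, (0 : ℝ) < (-1) ^ RS 1 i.val *
    (![1, 2, 16, -2, -27, 48, 30] : Fin 7 → ℝ) i := by
  intro i
  have r : ∀ j : Fin 7, RS 1 j.val = ![0, 0, 0, 1, 1, 0, 0] j := by decide
  rw [r]
  fin_cases i <;> norm_num

lemma sign6 : ∀ i : Fin 9, (0 : ℝ) < (-1) ^ RS 2 i.val *
    (![1, 4, 4, 1, 4, 1, 22, 22, 22] : Fin 9 → ℝ) i := by
  intro i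
  have r : ∀ j : Fin 9, RS 2 j.val = 0 := by decide
  rw [r]
  fin_cases i <;> norm_num

lemma tauc_sign (c : ℕ) (hc : c < 3) (i : Fin ((tauc c).m + 3)) :
    (0 : ℝ) < (-1) ^ RS c i.val * (tauc c).a i := by
  interval_cases c
  · exact signQ i
  · exact sign5 i
  · exact sign6 i

/-- the tile number `f` -/
noncomputable def tau (f : Fin 30) : Tile := tauc (TY f)

lemma tau_len (f : Fin 30) : (tau f).m + 3 = LEN f := tauc_m _ (ck_ty f f.2)

lemma tau_lt (f : Fin 30) (i : Fin ((tau f).m + 3)) : i.val < LEN f := by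
  calc i.val < (tau f).m + 3 := i.2
    _ = LEN f := tau_len f

/-- the lattice points of the tile number `f` -/
noncomputable def bb (f : Fin 30) (i : Fin ((tau f).m + 3)) : Fin 121 :=
  ⟨BB f i.val, ck_lt f f.2 i.val (tau_lt f i)⟩

lemma affine3 (x0 y0 x1 y1 x2 y2 v0 v1 v2 : ℝ)
    (hd : (x1 - x0) * (y2 - y0) - (x2 - x0) * (y1 - y0) ≠ 0) :
    ∃ k0 k1 k2 : ℝ, k0 + k1 * x0 + k2 * y0 = v0 ∧ k0 + k1 * x1 + k2 * y1 = v1 ∧
      k0 + k1 * x2 + k2 * y2 = v2 := by
  set D := (x1 - x0) * (y2 - y0) - (x2 - x0) * (y1 - y0) with hD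
  set k1 := ((v1 - v0) * (y2 - y0) - (v2 - v0) * (y1 - y0)) / D with hk1
  set k2 := ((x1 - x0) * (v2 - v0) - (x2 - x0) * (v1 - v0)) / D with hk2
  have h1 : k1 * D = (v1 - v0) * (y2 - y0) - (v2 - v0) * (y1 - y0) := by
    rw [hk1]; field_simp
  have h2 : k2 * D = (x1 - x0) * (v2 - v0) - (x2 - x0) * (v1 - v0) := by
    rw [hk2]; field_simp
  refine ⟨v0 - k1 * x0 - k2 * y0, k1, k2, by ring, ?_, ?_⟩
  · apply mul_left_cancel₀ hd
    have : D * (v0 - k1 * x0 - k2 * y0 + k1 * x1 + k2 * y1) =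
        D * v0 + (k1 * D) * (x1 - x0) + (k2 * D) * (y1 - y0) := by ring
    rw [this, h1, h2, hD]
    ring
  · apply mul_left_cancel₀ hd
    have : D * (v0 - k1 * x0 - k2 * y0 + k1 * x2 + k2 * y2) =
        D * v0 + (k1 * D) * (x2 - x0) + (k2 * D) * (y2 - y0) := by ring
    rw [this, h1, h2, hD]
    ring

/-- the tiles can be glued one after the other -/
lemma glue_aux (g : (f : Fin 30) → Fin ((tau f).m + 3) → ℝ) (n : ℕ) (hn : n ≤ 30) :
    ∃ L : Fin 121 → ℝ, ∀ f : Fin 30, f.val < n → ∃ k0 k1 k2 : ℝ, ∀ i,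
      L (bb f i) = g f i + (k0 + k1 * (tau f).qx i + k2 * (tau f).qy i) := by
  classical
  induction n with
  | zero => exact ⟨fun _ => 0, fun f hf => absurd hf (Nat.not_lt_zero _)⟩
  | succ n ih =>
    obtain ⟨L, hL⟩ := ih (by omega)
    set f0 : Fin 30 := ⟨n, by omega⟩ with hf0
    have htr : ∀ j < 3, TR f0 j < (tau f0).m + 3 := by
      intro j hj
      rw [tau_len]
      exact ck_trlt f0 f0.2 j hj
    set i0 : Fin ((tau f0).m + 3) := ⟨TR f0 0, htr 0 (by norm_num)⟩ with hi0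
    set i1 : Fin ((tau f0).m + 3) := ⟨TR f0 1, htr 1 (by norm_num)⟩ with hi1
    set i2 : Fin ((tau f0).m + 3) := ⟨TR f0 2, htr 2 (by norm_num)⟩ with hi2
    have hty := ck_ty f0 f0.2
    have hqx : ∀ i, (tau f0).qx i = RX (TY f0) i.val := fun i => tauc_qx _ hty i
    have hqy : ∀ i, (tau f0).qy i = RY (TY f0) i.val := fun i => tauc_qy _ hty i
    obtain ⟨k0, k1, k2, e0, e1, e2⟩ := affine3 ((tau f0).qx i0) ((tau f0).qy i0)
      ((tau f0).qx i1) ((tau f0).qy i1) ((tau f0).qx i2) ((tau f0).qy i2)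
      (L (bb f0 i0) - g f0 i0) (L (bb f0 i1) - g f0 i1) (L (bb f0 i2) - g f0 i2) (by
        have h := ck_tr f0 f0.2
        rw [hqx, hqx, hqx, hqy, hqy, hqy]
        exact_mod_cast h)
    set w : Fin ((tau f0).m + 3) → ℝ := fun i =>
      g f0 i + (k0 + k1 * (tau f0).qx i + k2 * (tau f0).qy i) with hw
    have hshared : ∀ i, (∃ f : Fin 30, f.val < n ∧ ∃ i', bb f i' = bb f0 i) →
        w i = L (bb f0 i) := by
      rintro i ⟨f, hf, i', hi'⟩
      have hcase := ck_new f0 f0.2 i.val (tau_lt f0 i)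
      rcases hcase with (h | h | h) | h
      · have : i = i0 := Fin.ext h
        rw [this, hw]; simp only; rw [e0]; ring
      · have : i = i1 := Fin.ext h
        rw [this, hw]; simp only; rw [e1]; ring
      · have : i = i2 := Fin.ext h
        rw [this, hw]; simp only; rw [e2]; ring
      · exact absurd (congrArg Fin.val hi') (h f hf i'.val (tau_lt f i'))
    have hinj : Function.Injective (bb f0) := by
      intro i j hij
      exact Fin.ext (ck_inj f0 f0.2 i.val (tau_lt f0 i) j.val (tau_lt f0 j)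
        (congrArg Fin.val hij))
    refine ⟨fun p => if h : ∃ i, bb f0 i = p then w h.choose else L p, ?_⟩
    intro f hf
    rcases Nat.lt_succ_iff_lt_or_eq.mp hf with hlt | heq
    · obtain ⟨c0, c1, c2, hc⟩ := hL f hlt
      refine ⟨c0, c1, c2, fun i => ?_⟩
      rw [← hc i]
      simp only
      split_ifs with h
      · have hs := h.choose_spec
        rw [hshared h.choose ⟨f, hlt, i, hs.symm⟩, hs]
      · rfl
    · have hff : f = f0 := Fin.ext heq
      subst hff
      refine ⟨k0, k1, k2, fun i => ?_⟩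
      have h : ∃ i', bb f0 i' = bb f0 i := ⟨i, rfl⟩
      simp only
      rw [dif_pos h]
      have hs := hinj h.choose_spec
      rw [hs]

/-- existence of a real polynomial with exponents `(E1 p, E2 p)` and 57 real cusps -/
theorem exists_cusps :
    ∃ (a : Fin 121 → ℝ) (x y : (Σ f : Fin 30, Fin (tau f).r) → ℝ),
      (∀ k, x k ≠ 0) ∧ (∀ k, y k ≠ 0) ∧
      (∀ k k', x k = x k' → y k = y k' → k = k') ∧
      ∀ k, MomentCusp (fun p : Fin 121 => (E1 p : ℝ)) (fun p => (E2 p : ℝ))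
        (fun p => a p * x k ^ E1 p * y k ^ E2 p) := by
  have hty : ∀ f : Fin 30, TY f < 3 := fun f => ck_ty f f.2
  apply glue tau bb
    (fun f i j hij => Fin.ext (ck_inj f f.2 i.val (tau_lt f i) j.val (tau_lt f j)
        (congrArg Fin.val hij)))
    (fun p => E1 p) (fun p => E2 p) (fun p => (NU p : ℤ))
    (fun f => N11 f) (fun f => N12 f) (fun f => D1 f) (fun f => N21 f) (fun f => N22 f)
    (fun f => D2 f) (fun f => pn f 0) (fun f => pn f 1 - pn f 0) (fun f => pn f 2 - pn f 0)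
    (fun f p => (HH f p).toNat) (fun f p => Q1 f p) (fun f p => Q2 f p)
    (fun f p => rfl) (fun f p => rfl) (fun f => ck_det f f.2)
    ?_ ?_ ?_ ?_ ?_ ?_ (fun p => (-1) ^ SG p) (fun f => (-1) ^ SI f 0) (fun f => (-1) ^ SI f 1)
    (fun f => (-1) ^ SI f 2)
  · intro f
    rw [← pow_mul, mul_comm, pow_mul]; norm_num
  · intro f
    rw [← pow_mul, mul_comm, pow_mul]; norm_num
  · intro f
    rw [← pow_mul, mul_comm, pow_mul]; norm_num
  · intro f i
    have h1 := tauc_sign _ (hty f) i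
    have h2 := ck_sg f f.2 i.val (tau_lt f i)
    have hqx : (tau f).qx i = RX (TY f) i.val := tauc_qx _ (hty f) i
    have hqy : (tau f).qy i = RY (TY f) i.val := tauc_qy _ (hty f) i
    rw [hqx, hqy]
    have h3 : (-1 : ℝ) ^ (SG (BB f i.val) + SI f 0 + SI f 1 * RX (TY f) i.val +
        SI f 2 * RY (TY f) i.val + RS (TY f) i.val) = 1 :=
      Even.neg_one_pow (Nat.even_iff.mpr h2)
    have h4 : (-1 : ℝ) ^ RS (TY f) i.val * (-1) ^ RS (TY f) i.val = 1 := by
      rw [← pow_add, ← two_mul, pow_mul]; norm_num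
    have h5 : (-1 : ℝ) ^ SG (bb f i) * ((-1) ^ SI f 0 * ((-1) ^ SI f 1) ^ RX (TY f) i.val *
        ((-1) ^ SI f 2) ^ RY (TY f) i.val) = (-1) ^ RS (TY f) i.val := by
      have hb : (bb f i).val = BB f i.val := rfl
      rw [hb]
      rw [pow_add, pow_add, pow_add, pow_add, pow_mul, pow_mul] at h3
      linear_combination (-1 : ℝ) ^ RS (TY f) i.val * h3 -
        ((-1 : ℝ) ^ SG (BB f i.val) * ((-1) ^ SI f 0 * ((-1) ^ SI f 1) ^ RX (TY f) i.val *
        ((-1) ^ SI f 2) ^ RY (TY f) i.val)) * h4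
    rw [h5]
    exact h1
  · intro p
    rw [← pow_mul, mul_comm, pow_mul]; norm_num
  · intro g
    obtain ⟨L, hL⟩ := glue_aux g 30 le_rfl
    exact ⟨L, fun f => hL f f.2⟩
  · intro f p
    have h := ck_h f f.2 p p.2
    rw [Int.toNat_of_nonneg h]
    unfold HH
    ring
  · intro f i
    rw [show (tau f).qx i = RX (TY f) i.val from tauc_qx _ (hty f) i]
    exact ck_x f f.2 i.val (tau_lt f i)
  · intro f i
    rw [show (tau f).qy i = RY (TY f) i.val from tauc_qy _ (hty f) i]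
    exact ck_y f f.2 i.val (tau_lt f i)
  · intro f i
    have := ck_h0 f f.2 i.val (tau_lt f i)
    have hb : (bb f i).val = BB f i.val := rfl
    rw [hb, this]
    rfl
  · intro f p hp h0
    have h1 := ck_h f f.2 p p.2
    have h2 : HH f p = 0 := le_antisymm (Int.toNat_eq_zero.mp h0) h1
    obtain ⟨i, hi, hbi⟩ := ck_h1 f f.2 p p.2 h2
    have hi' : i < (tau f).m + 3 := by rw [tau_len]; exact hi
    exact hp ⟨i, hi'⟩ (Fin.ext hbi)
  · intro f f' hff
    have hlen : LEN f - 1 < (tau f).m + 3 := by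
      rw [tau_len]; unfold LEN; omega
    refine ⟨⟨LEN f - 1, hlen⟩, fun i' h => ?_⟩
    exact ck_sep f f.2 f' f'.2 (fun h' => hff (Fin.ext h')) i'.val (tau_lt f' i')
      (congrArg Fin.val h)

lemma card_cusps : Fintype.card (Σ f : Fin 30, Fin (tau f).r) = 57 := by
  rw [Fintype.card_sigma]
  have h : ∀ f : Fin 30, Fintype.card (Fin (tau f).r) = TY f + 1 := by
    intro f
    rw [Fintype.card_fin]
    exact tauc_r _ (ck_ty f f.2)
  rw [Finset.sum_congr rfl fun f _ => h f]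
  decide +kernel

theorem not_quarter :
    ¬ (∀ ε : ℝ, 0 < ε → ∃ N : ℕ, ∀ d : ℕ, N ≤ d →
      ∀ f : MvPolynomial (Fin 2) ℝ, f.totalDegree = d →
      ∀ S : Finset (Fin 2 → ℝ), (∀ p ∈ S, CuspAt f p) →
        (S.card : ℝ) ≤ (1 / 4 + ε) * (d : ℝ) ^ 2) := by
  obtain ⟨a, x, y, hx, hy, hinj, hm⟩ := exists_cusps
  refine not_bound (fun p : Fin 121 => E1 p) (fun p => E2 p) a 15 (fun p => ck_D p p.2) x y hx hy
    hinj hm ?_
  rw [card_cusps]
  norm_num

end Pool.Agent.helper5.Cusp
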