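import Pool.Agent.helper5.Cusp.Glue

set_option autoImplicit false
set_option linter.unusedSimpArgs false
set_option linter.unusedVariables false
set_option linter.unusedTactic false

namespace Pool.Agent.helper5.Cusp

lemma sum5 (f : Fin 5 → ℝ) : ∑ i, f i = f 0 + f 1 + f 2 + f 3 + f 4 := by
  simp only [Fin.sum_univ_succ, Fin.sum_univ_zero]
  simp only [Fin.succ_zero_eq_one, Fin.succ_one_eq_two, Fin.reduceSucc]
  ring

lemma sum7 (f : Fin 7 → ℝ) : ∑ i, f i = f 0 + f 1 + f 2 + f 3 + f 4 + f 5 + f 6 := by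
  simp only [Fin.sum_univ_succ, Fin.sum_univ_zero]
  simp only [Fin.succ_zero_eq_one, Fin.succ_one_eq_two, Fin.reduceSucc]
  ring

lemma sum9 (f : Fin 9 → ℝ) :
    ∑ i, f i = f 0 + f 1 + f 2 + f 3 + f 4 + f 5 + f 6 + f 7 + f 8 := by
  simp only [Fin.sum_univ_succ, Fin.sum_univ_zero]
  simp only [Fin.succ_zero_eq_one, Fin.succ_one_eq_two, Fin.reduceSucc]
  ring

def p6qx : Fin 9 → ℕ := ![0, 1, 0, 4, 5, 2, 1, 2, 3]
def p6qy : Fin 9 → ℕ := ![0, 0, 1, 2, 3, 2, 1, 1, 2]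
noncomputable def p6a : Fin 9 → ℝ := ![1, 4, 4, 1, 4, 1, 22, 22, 22]
noncomputable def p6A (t : ℝ) : Fin 9 → ℝ :=
  ![(1),
    (-8) + (24)*t + (-12)*t^2,
    (100) + (-240)*t + (-156)*t^2,
    (1) + (-6)*t + (9)*t^2,
    (196) + (-456)*t + (-312)*t^2,
    (-92) + (216)*t + (141)*t^2,
    (88) + (-198)*t + (-132)*t^2,
    (22) + (-66)*t,
    (-308) + (726)*t + (462)*t^2]
noncomputable def p6N (t : ℝ) : Fin 9 → ℝ :=
  ![0,
    (1) + (-1)*t^2,
    (3),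
    (10) + (-4)*t^2,
    (14) + (-5)*t^2,
    (8) + (-2)*t^2,
    (4) + (-1)*t^2,
    (5) + (-2)*t^2,
    (9) + (-3)*t^2]
noncomputable def p6M (t : ℝ) : Fin 9 → ℝ :=
  ![0,
    (-3),
    (1) + (-1)*t^2,
    (-10) + (-2)*t^2,
    (-12) + (-3)*t^2,
    (-4) + (-2)*t^2,
    (-2) + (-1)*t^2,
    (-5) + (-1)*t^2,
    (-7) + (-2)*t^2]
noncomputable def p6R0 (t : ℝ) : Fin 9 → ℝ :=
  ![(95/81) + (-10/81)*t + (-34/81)*t^2,
    0,
    (29/162) + (1/54)*t + (-29/324)*t^2,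
    0,
    0,
    (11/81) + (1/81)*t + (-11/162)*t^2,
    (19/198) + (1/99)*t + (-19/396)*t^2,
    (8/891) + (1/891)*t + (-4/891)*t^2,
    (1/22) + (5/891)*t + (-1/44)*t^2]
noncomputable def p6R1 (t : ℝ) : Fin 9 → ℝ :=
  ![(-7/18) + (1/18)*t + (7/54)*t^2,
    0,
    (-2/9) + (5/108)*t + (7/108)*t^2,
    0,
    0,
    (-5/27) + (1/27)*t + (1/18)*t^2,
    (-35/1188) + (17/1188)*t + (1/297)*t^2,
    (-7/1188) + (1/396)*t + (1/1188)*t^2,
    (-8/297) + (5/594)*t + (7/1188)*t^2]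
noncomputable def p6X (t : ℝ) : ℝ := (-2) + (6)*t + (-3)*t^2
noncomputable def p6Y (t : ℝ) : ℝ := (25) + (-60)*t + (-39)*t^2
noncomputable def p6m1 (t : ℝ) : ℝ := (1) + (-1)*t^2
noncomputable def p6m2 (t : ℝ) : ℝ := (3)

lemma p6_s0 (t : ℝ) (ht : t ^ 3 - 3 * t + 1 = 0) : ∑ i, p6A t i = 0 := by
  rw [sum9]
  simp only [p6A, p6N, p6M, p6R0, p6R1, Matrix.cons_val]
  linear_combination (0) * ht

lemma p6_s1 (t : ℝ) (ht : t ^ 3 - 3 * t + 1 = 0) : ∑ i, p6A t i * p6N t i = 0 := by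
  rw [sum9]
  simp only [p6A, p6N, p6M, p6R0, p6R1, Matrix.cons_val]
  linear_combination (0) * ht

lemma p6_s2 (t : ℝ) (ht : t ^ 3 - 3 * t + 1 = 0) : ∑ i, p6A t i * p6M t i = 0 := by
  rw [sum9]
  simp only [p6A, p6N, p6M, p6R0, p6R1, Matrix.cons_val]
  linear_combination (0) * ht

lemma p6_s3 (t : ℝ) (ht : t ^ 3 - 3 * t + 1 = 0) : ∑ i, p6A t i * (p6N t i * p6N t i) = 0 := by
  rw [sum9]
  simp only [p6A, p6N, p6M, p6R0, p6R1, Matrix.cons_val]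
  linear_combination ((10530) + (7290)*t + (-4536)*t^2 + (-3078)*t^3) * ht

lemma p6_s4 (t : ℝ) (ht : t ^ 3 - 3 * t + 1 = 0) : ∑ i, p6A t i * (p6N t i * p6M t i) = 0 := by
  rw [sum9]
  simp only [p6A, p6N, p6M, p6R0, p6R1, Matrix.cons_val]
  linear_combination ((-11610) + (-7830)*t + (-1998)*t^2 + (-1404)*t^3) * ht

lemma p6_T (t : ℝ) (ht : t ^ 3 - 3 * t + 1 = 0) : ∑ i, p6A t i * (p6N t i) ^ 3 ≠ 0 := by
  have h : (∑ i, p6A t i * (p6N t i) ^ 3) * ((-1/36) + (1/216)*t + (1/108)*t^2) = 1 := by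
    rw [sum9]
    simp only [p6A, p6N, p6M, p6R0, p6R1, Matrix.cons_val]
    linear_combination ((-15461/2) + (-15969/4)*t + (110005/12)*t^2 + (28187/6)*t^3 + (-10715/3)*t^4 + (-5458/3)*t^5 + (5471/12)*t^6 + (1387/6)*t^7) * ht
  intro h0
  rw [h0, zero_mul] at h
  exact zero_ne_one h

lemma p6_H (t : ℝ) (ht : t ^ 3 - 3 * t + 1 = 0) : ∑ i, p6A t i * (p6M t i) ^ 2 ≠ 0 := by
  have h : (∑ i, p6A t i * (p6M t i) ^ 2) * ((-105442/2653641) + (25543/5307282)*t + (24385/1769094)*t^2) = 1 := by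
    rw [sum9]
    simp only [p6A, p6N, p6M, p6R0, p6R1, Matrix.cons_val]
    linear_combination ((-49656023/98283) + (-8993088/32761)*t + (-5757103/32761)*t^2 + (-9656035/98283)*t^3 + (-492332/32761)*t^4 + (-292620/32761)*t^5) * ht
  intro h0
  rw [h0, zero_mul] at h
  exact zero_ne_one h

lemma p6_R0_t_F0 (t : ℝ) (ht : t ^ 3 - 3 * t + 1 = 0) : ∑ i, p6A (t) i * p6R0 t i = 1 := by
  rw [sum9]
  simp only [p6A, p6N, p6M, p6R0, p6R1, Matrix.cons_val]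
  linear_combination ((2/9) + (2/9)*t) * ht

lemma p6_R0_t_F1 (t : ℝ) (ht : t ^ 3 - 3 * t + 1 = 0) : ∑ i, p6A (t) i * (p6R0 t i * p6N (t) i) = 0 := by
  rw [sum9]
  simp only [p6A, p6N, p6M, p6R0, p6R1, Matrix.cons_val]
  linear_combination ((-3712/27) + (-2809/27)*t + (1588/27)*t^2 + (2393/54)*t^3) * ht

lemma p6_R0_t1_F0 (t : ℝ) (ht : t ^ 3 - 3 * t + 1 = 0) : ∑ i, p6A (2 - t - t ^ 2) i * p6R0 t i = 0 := by
  rw [sum9]
  simp only [p6A, p6N, p6M, p6R0, p6R1, Matrix.cons_val]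
  linear_combination ((-1) + (-1/3)*t + (5/9)*t^2 + (2/9)*t^3) * ht

lemma p6_R0_t1_F1 (t : ℝ) (ht : t ^ 3 - 3 * t + 1 = 0) : ∑ i, p6A (2 - t - t ^ 2) i * (p6R0 t i * p6N (2 - t - t ^ 2) i) = 0 := by
  rw [sum9]
  simp only [p6A, p6N, p6M, p6R0, p6R1, Matrix.cons_val]
  linear_combination ((-8498/9) + (1441/9)*t + (1712)*t^2 + (2779/54)*t^3 + (-51521/54)*t^4 + (-8249/54)*t^5 + (502/3)*t^6 + (2393/54)*t^7) * ht

lemma p6_R0_t2_F0 (t : ℝ) (ht : t ^ 3 - 3 * t + 1 = 0) : ∑ i, p6A (t ^ 2 - 2) i * p6R0 t i = 0 := by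
  rw [sum9]
  simp only [p6A, p6N, p6M, p6R0, p6R1, Matrix.cons_val]
  linear_combination ((-1/9) + (-5/9)*t + (1/9)*t^2 + (2/9)*t^3) * ht

lemma p6_R0_t2_F1 (t : ℝ) (ht : t ^ 3 - 3 * t + 1 = 0) : ∑ i, p6A (t ^ 2 - 2) i * (p6R0 t i * p6N (t ^ 2 - 2) i) = 0 := by
  rw [sum9]
  simp only [p6A, p6N, p6M, p6R0, p6R1, Matrix.cons_val]
  linear_combination ((-358/9) + (-1114/9)*t + (2570/27)*t^2 + (10132/27)*t^3 + (-545/54)*t^4 + (-13039/54)*t^5 + (-268/27)*t^6 + (2393/54)*t^7) * ht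

lemma p6_R1_t_F0 (t : ℝ) (ht : t ^ 3 - 3 * t + 1 = 0) : ∑ i, p6A (t) i * p6R1 t i = 0 := by
  rw [sum9]
  simp only [p6A, p6N, p6M, p6R0, p6R1, Matrix.cons_val]
  linear_combination (0) * ht

lemma p6_R1_t_F1 (t : ℝ) (ht : t ^ 3 - 3 * t + 1 = 0) : ∑ i, p6A (t) i * (p6R1 t i * p6N (t) i) = 1 := by
  rw [sum9]
  simp only [p6A, p6N, p6M, p6R0, p6R1, Matrix.cons_val]
  linear_combination ((2381/18) + (985/18)*t + (-1013/18)*t^2 + (-421/18)*t^3) * ht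

lemma p6_R1_t1_F0 (t : ℝ) (ht : t ^ 3 - 3 * t + 1 = 0) : ∑ i, p6A (2 - t - t ^ 2) i * p6R1 t i = 0 := by
  rw [sum9]
  simp only [p6A, p6N, p6M, p6R0, p6R1, Matrix.cons_val]
  linear_combination (0) * ht

lemma p6_R1_t1_F1 (t : ℝ) (ht : t ^ 3 - 3 * t + 1 = 0) : ∑ i, p6A (2 - t - t ^ 2) i * (p6R1 t i * p6N (2 - t - t ^ 2) i) = 0 := by
  rw [sum9]
  simp only [p6A, p6N, p6M, p6R0, p6R1, Matrix.cons_val]
  linear_combination ((5455/6) + (-2833/6)*t + (-12190/9)*t^2 + (599/2)*t^3 + (12101/18)*t^4 + (157/9)*t^5 + (-1024/9)*t^6 + (-421/18)*t^7) * ht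

lemma p6_R1_t2_F0 (t : ℝ) (ht : t ^ 3 - 3 * t + 1 = 0) : ∑ i, p6A (t ^ 2 - 2) i * p6R1 t i = 0 := by
  rw [sum9]
  simp only [p6A, p6N, p6M, p6R0, p6R1, Matrix.cons_val]
  linear_combination (0) * ht

lemma p6_R1_t2_F1 (t : ℝ) (ht : t ^ 3 - 3 * t + 1 = 0) : ∑ i, p6A (t ^ 2 - 2) i * (p6R1 t i * p6N (t ^ 2 - 2) i) = 0 := by
  rw [sum9]
  simp only [p6A, p6N, p6M, p6R0, p6R1, Matrix.cons_val]
  linear_combination ((235/6) + (108)*t + (-1117/9)*t^2 + (-308)*t^3 + (280/3)*t^4 + (1499/9)*t^5 + (-182/9)*t^6 + (-421/18)*t^7) * ht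

lemma p6X_ne (t : ℝ) (ht : t ^ 3 - 3 * t + 1 = 0) : p6X t ≠ 0 := by
  have h : p6X t * ((-5) + (3)*t + (3)*t^2) = 1 := by
    unfold p6X
    linear_combination ((9) + (-9)*t) * ht
  intro h0
  rw [h0, zero_mul] at h
  exact zero_ne_one h

lemma p6Y_ne (t : ℝ) (ht : t ^ 3 - 3 * t + 1 = 0) : p6Y t ≠ 0 := by
  have h : p6Y t * ((4) + (-21)*t + (12)*t^2) = 1 := by
    unfold p6Y
    linear_combination ((99) + (-468)*t) * ht
  intro h0
  rw [h0, zero_mul] at h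
  exact zero_ne_one h

lemma p6m_ne (t : ℝ) (ht : t ^ 3 - 3 * t + 1 = 0) : p6m1 t ^ 2 + p6m2 t ^ 2 ≠ 0 := by
  have h : (p6m1 t ^ 2 + p6m2 t ^ 2) * ((55/543) + (1/181)*t + (-4/543)*t^2) = 1 := by
    unfold p6m1 p6m2
    linear_combination ((7/543) + (17/181)*t + (1/181)*t^2 + (-4/543)*t^3) * ht
  intro h0
  rw [h0, zero_mul] at h
  exact zero_ne_one h

lemma p6_A_eq (t : ℝ) (ht : t ^ 3 - 3 * t + 1 = 0) (i : Fin 9) :
    p6A t i = p6a i * p6X t ^ p6qx i * p6Y t ^ p6qy i := by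
  have v10 : p6X t = (-2) + (6)*t + (-3)*t^2 := rfl
  have v01 : p6Y t = (25) + (-60)*t + (-39)*t^2 := rfl
  generalize p6X t = x at *
  generalize p6Y t = y at *
  have v11 : x ^ 1 * y ^ 1 = (4) + (-9)*t + (-6)*t^2 := by
    have e1 : x ^ 1 * y ^ 1 = (x ^ 1 * y ^ 0) * (x ^ 0 * y ^ 1) := by ring
    have e2 : x ^ 1 * y ^ 0 = (-2) + (6)*t + (-3)*t^2 := by
      rw [pow_one, pow_zero, mul_one, v10]
    have e3 : x ^ 0 * y ^ 1 = (25) + (-60)*t + (-39)*t^2 := by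
      rw [pow_one, pow_zero, one_mul, v01]
    rw [e1, e2, e3]
    linear_combination ((-54) + (117)*t) * ht
  have v21 : x ^ 2 * y ^ 1 = (1) + (-3)*t := by
    have e1 : x ^ 2 * y ^ 1 = (x ^ 1 * y ^ 0) * (x ^ 1 * y ^ 1) := by ring
    have e2 : x ^ 1 * y ^ 0 = (-2) + (6)*t + (-3)*t^2 := by
      rw [pow_one, pow_zero, mul_one, v10]
    have e3 : x ^ 1 * y ^ 1 = (4) + (-9)*t + (-6)*t^2 := by
      rw [v11]
    rw [e1, e2, e3]
    linear_combination ((-9) + (18)*t) * ht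
  have v22 : x ^ 2 * y ^ 2 = (-92) + (216)*t + (141)*t^2 := by
    have e1 : x ^ 2 * y ^ 2 = (x ^ 1 * y ^ 1) * (x ^ 1 * y ^ 1) := by ring
    have e2 : x ^ 1 * y ^ 1 = (4) + (-9)*t + (-6)*t^2 := by
      rw [v11]
    have e3 : x ^ 1 * y ^ 1 = (4) + (-9)*t + (-6)*t^2 := by
      rw [v11]
    rw [e1, e2]
    linear_combination ((108) + (36)*t) * ht
  have v32 : x ^ 3 * y ^ 2 = (-14) + (33)*t + (21)*t^2 := by
    have e1 : x ^ 3 * y ^ 2 = (x ^ 2 * y ^ 1) * (x ^ 1 * y ^ 1) := by ring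
    have e2 : x ^ 2 * y ^ 1 = (1) + (-3)*t := by
      rw [v21]
    have e3 : x ^ 1 * y ^ 1 = (4) + (-9)*t + (-6)*t^2 := by
      rw [v11]
    rw [e1, e2, e3]
    linear_combination ((18)) * ht
  have v42 : x ^ 4 * y ^ 2 = (1) + (-6)*t + (9)*t^2 := by
    have e1 : x ^ 4 * y ^ 2 = (x ^ 2 * y ^ 1) * (x ^ 2 * y ^ 1) := by ring
    have e2 : x ^ 2 * y ^ 1 = (1) + (-3)*t := by
      rw [v21]
    have e3 : x ^ 2 * y ^ 1 = (1) + (-3)*t := by
      rw [v21]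
    rw [e1, e2]
    linear_combination (0) * ht
  have v53 : x ^ 5 * y ^ 3 = (49) + (-114)*t + (-78)*t^2 := by
    have e1 : x ^ 5 * y ^ 3 = (x ^ 4 * y ^ 2) * (x ^ 1 * y ^ 1) := by ring
    have e2 : x ^ 4 * y ^ 2 = (1) + (-6)*t + (9)*t^2 := by
      rw [v42]
    have e3 : x ^ 1 * y ^ 1 = (4) + (-9)*t + (-6)*t^2 := by
      rw [v11]
    rw [e1, e2, e3]
    linear_combination ((-45) + (-54)*t) * ht
  fin_cases i
  · show p6A t 0 = p6a 0 * x ^ p6qx 0 * y ^ p6qy 0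
    simp only [p6A, p6a, p6qx, p6qy, Matrix.cons_val]
    ring
  · show p6A t 1 = p6a 1 * x ^ p6qx 1 * y ^ p6qy 1
    simp only [p6A, p6a, p6qx, p6qy, Matrix.cons_val]
    rw [v10]; ring
  · show p6A t 2 = p6a 2 * x ^ p6qx 2 * y ^ p6qy 2
    simp only [p6A, p6a, p6qx, p6qy, Matrix.cons_val]
    rw [v01]; ring
  · show p6A t 3 = p6a 3 * x ^ p6qx 3 * y ^ p6qy 3
    simp only [p6A, p6a, p6qx, p6qy, Matrix.cons_val]
    rw [mul_assoc, v42]; ring
  · show p6A t 4 = p6a 4 * x ^ p6qx 4 * y ^ p6qy 4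
    simp only [p6A, p6a, p6qx, p6qy, Matrix.cons_val]
    rw [mul_assoc, v53]; ring
  · show p6A t 5 = p6a 5 * x ^ p6qx 5 * y ^ p6qy 5
    simp only [p6A, p6a, p6qx, p6qy, Matrix.cons_val]
    rw [mul_assoc, v22]; ring
  · show p6A t 6 = p6a 6 * x ^ p6qx 6 * y ^ p6qy 6
    simp only [p6A, p6a, p6qx, p6qy, Matrix.cons_val]
    rw [mul_assoc, v11]; ring
  · show p6A t 7 = p6a 7 * x ^ p6qx 7 * y ^ p6qy 7
    simp only [p6A, p6a, p6qx, p6qy, Matrix.cons_val]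
    rw [mul_assoc, v21]; ring
  · show p6A t 8 = p6a 8 * x ^ p6qx 8 * y ^ p6qy 8
    simp only [p6A, p6a, p6qx, p6qy, Matrix.cons_val]
    rw [mul_assoc, v32]; ring

def p5qx : Fin 7 → ℕ := ![0, 1, 0, 3, 4, 1, 2]
def p5qy : Fin 7 → ℕ := ![0, 0, 1, 1, 2, 1, 1]
noncomputable def p5a : Fin 7 → ℝ := ![1, 2, 16, -2, -27, 48, 30]
noncomputable def p5A (t : ℝ) : Fin 7 → ℝ :=
  ![(1),
    (-8) + (4)*t,
    (-4/3) + (-8/9)*t,
    (16/3) + (-28/9)*t,
    (-7) + (4)*t,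
    (8/3)*t,
    (10) + (-20/3)*t]
noncomputable def p5N (t : ℝ) : Fin 7 → ℝ :=
  ![0,
    (1),
    (2) + (2)*t,
    (5) + (2)*t,
    (8) + (4)*t,
    (3) + (2)*t,
    (4) + (2)*t]
noncomputable def p5M (t : ℝ) : Fin 7 → ℝ :=
  ![0,
    (-2) + (-2)*t,
    (1),
    (-5) + (-6)*t,
    (-6) + (-8)*t,
    (-1) + (-2)*t,
    (-3) + (-4)*t]
noncomputable def p5R0 (t : ℝ) : Fin 7 → ℝ :=
  ![(1/2) + (1/4)*t,
    (-1/16)*t,
    0,
    0,
    0,
    (-1/32)*t,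
    (-3/40)*t]
noncomputable def p5R1 (t : ℝ) : Fin 7 → ℝ :=
  ![(-1/8),
    (-1/16) + (1/16)*t,
    0,
    0,
    0,
    (1/32)*t,
    (-3/80) + (1/20)*t]
noncomputable def p5X (t : ℝ) : ℝ := (-4) + (2)*t
noncomputable def p5Y (t : ℝ) : ℝ := (-1/12) + (-1/18)*t
noncomputable def p5m1 (t : ℝ) : ℝ := (1)
noncomputable def p5m2 (t : ℝ) : ℝ := (2) + (2)*t

lemma p5_s0 (t : ℝ) (ht : t ^ 2 - 3 = 0) : ∑ i, p5A t i = 0 := by
  rw [sum7]
  simp only [p5A, p5N, p5M, p5R0, p5R1, Matrix.cons_val]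
  linear_combination (0) * ht

lemma p5_s1 (t : ℝ) (ht : t ^ 2 - 3 = 0) : ∑ i, p5A t i * p5N t i = 0 := by
  rw [sum7]
  simp only [p5A, p5N, p5M, p5R0, p5R1, Matrix.cons_val]
  linear_combination (0) * ht

lemma p5_s2 (t : ℝ) (ht : t ^ 2 - 3 = 0) : ∑ i, p5A t i * p5M t i = 0 := by
  rw [sum7]
  simp only [p5A, p5N, p5M, p5R0, p5R1, Matrix.cons_val]
  linear_combination (0) * ht

lemma p5_s3 (t : ℝ) (ht : t ^ 2 - 3 = 0) : ∑ i, p5A t i * (p5N t i * p5N t i) = 0 := by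
  rw [sum7]
  simp only [p5A, p5N, p5M, p5R0, p5R1, Matrix.cons_val]
  linear_combination ((56) + (32)*t) * ht

lemma p5_s4 (t : ℝ) (ht : t ^ 2 - 3 = 0) : ∑ i, p5A t i * (p5N t i * p5M t i) = 0 := by
  rw [sum7]
  simp only [p5A, p5N, p5M, p5R0, p5R1, Matrix.cons_val]
  linear_combination ((-32) + (-48)*t) * ht

lemma p5_T (t : ℝ) (ht : t ^ 2 - 3 = 0) : ∑ i, p5A t i * (p5N t i) ^ 3 ≠ 0 := by
  have h : (∑ i, p5A t i * (p5N t i) ^ 3) * ((3/64) + (-1/32)*t) = 1 := by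
    rw [sum7]
    simp only [p5A, p5N, p5M, p5R0, p5R1, Matrix.cons_val]
    linear_combination ((869/24) + (51/4)*t + (-15)*t^2 + (-6)*t^3) * ht
  intro h0
  rw [h0, zero_mul] at h
  exact zero_ne_one h

lemma p5_H (t : ℝ) (ht : t ^ 2 - 3 = 0) : ∑ i, p5A t i * (p5M t i) ^ 2 ≠ 0 := by
  have h : (∑ i, p5A t i * (p5M t i) ^ 2) * ((-103/18818) + (-10/9409)*t) = 1 := by
    rw [sum7]
    simp only [p5A, p5N, p5M, p5R0, p5R1, Matrix.cons_val]
    linear_combination ((2072/9409) + (-2816/9409)*t + (-640/9409)*t^2) * ht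
  intro h0
  rw [h0, zero_mul] at h
  exact zero_ne_one h

lemma p5_R0_t_F0 (t : ℝ) (ht : t ^ 2 - 3 = 0) : ∑ i, p5A (t) i * p5R0 t i = 1 := by
  rw [sum7]
  simp only [p5A, p5N, p5M, p5R0, p5R1, Matrix.cons_val]
  linear_combination ((1/6)) * ht

lemma p5_R0_t_F1 (t : ℝ) (ht : t ^ 2 - 3 = 0) : ∑ i, p5A (t) i * (p5R0 t i * p5N (t) i) = 0 := by
  rw [sum7]
  simp only [p5A, p5N, p5M, p5R0, p5R1, Matrix.cons_val]
  linear_combination ((5/6)*t) * ht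

lemma p5_R0_t1_F0 (t : ℝ) (ht : t ^ 2 - 3 = 0) : ∑ i, p5A (-t) i * p5R0 t i = 0 := by
  rw [sum7]
  simp only [p5A, p5N, p5M, p5R0, p5R1, Matrix.cons_val]
  linear_combination ((-1/6)) * ht

lemma p5_R0_t1_F1 (t : ℝ) (ht : t ^ 2 - 3 = 0) : ∑ i, p5A (-t) i * (p5R0 t i * p5N (-t) i) = 0 := by
  rw [sum7]
  simp only [p5A, p5N, p5M, p5R0, p5R1, Matrix.cons_val]
  linear_combination ((5/6)*t) * ht

lemma p5_R1_t_F0 (t : ℝ) (ht : t ^ 2 - 3 = 0) : ∑ i, p5A (t) i * p5R1 t i = 0 := by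
  rw [sum7]
  simp only [p5A, p5N, p5M, p5R0, p5R1, Matrix.cons_val]
  linear_combination (0) * ht

lemma p5_R1_t_F1 (t : ℝ) (ht : t ^ 2 - 3 = 0) : ∑ i, p5A (t) i * (p5R1 t i * p5N (t) i) = 1 := by
  rw [sum7]
  simp only [p5A, p5N, p5M, p5R0, p5R1, Matrix.cons_val]
  linear_combination ((2/3) + (-1/2)*t) * ht

lemma p5_R1_t1_F0 (t : ℝ) (ht : t ^ 2 - 3 = 0) : ∑ i, p5A (-t) i * p5R1 t i = 0 := by
  rw [sum7]
  simp only [p5A, p5N, p5M, p5R0, p5R1, Matrix.cons_val]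
  linear_combination (0) * ht

lemma p5_R1_t1_F1 (t : ℝ) (ht : t ^ 2 - 3 = 0) : ∑ i, p5A (-t) i * (p5R1 t i * p5N (-t) i) = 0 := by
  rw [sum7]
  simp only [p5A, p5N, p5M, p5R0, p5R1, Matrix.cons_val]
  linear_combination ((1/3) + (-1/2)*t) * ht

lemma p5X_ne (t : ℝ) (ht : t ^ 2 - 3 = 0) : p5X t ≠ 0 := by
  have h : p5X t * ((-1) + (-1/2)*t) = 1 := by
    unfold p5X
    linear_combination ((-1)) * ht
  intro h0
  rw [h0, zero_mul] at h
  exact zero_ne_one h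

lemma p5Y_ne (t : ℝ) (ht : t ^ 2 - 3 = 0) : p5Y t ≠ 0 := by
  have h : p5Y t * ((36) + (-24)*t) = 1 := by
    unfold p5Y
    linear_combination ((4/3)) * ht
  intro h0
  rw [h0, zero_mul] at h
  exact zero_ne_one h

lemma p5m_ne (t : ℝ) (ht : t ^ 2 - 3 = 0) : p5m1 t ^ 2 + p5m2 t ^ 2 ≠ 0 := by
  have h : (p5m1 t ^ 2 + p5m2 t ^ 2) * ((17/97) + (-8/97)*t) = 1 := by
    unfold p5m1 p5m2
    linear_combination ((4/97) + (-32/97)*t) * ht
  intro h0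
  rw [h0, zero_mul] at h
  exact zero_ne_one h

lemma p5_A_eq (t : ℝ) (ht : t ^ 2 - 3 = 0) (i : Fin 7) :
    p5A t i = p5a i * p5X t ^ p5qx i * p5Y t ^ p5qy i := by
  have v10 : p5X t = (-4) + (2)*t := rfl
  have v01 : p5Y t = (-1/12) + (-1/18)*t := rfl
  generalize p5X t = x at *
  generalize p5Y t = y at *
  have v11 : x ^ 1 * y ^ 1 = (1/18)*t := by
    have e1 : x ^ 1 * y ^ 1 = (x ^ 1 * y ^ 0) * (x ^ 0 * y ^ 1) := by ring
    have e2 : x ^ 1 * y ^ 0 = (-4) + (2)*t := by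
      rw [pow_one, pow_zero, mul_one, v10]
    have e3 : x ^ 0 * y ^ 1 = (-1/12) + (-1/18)*t := by
      rw [pow_one, pow_zero, one_mul, v01]
    rw [e1, e2, e3]
    linear_combination ((-1/9)) * ht
  have v21 : x ^ 2 * y ^ 1 = (1/3) + (-2/9)*t := by
    have e1 : x ^ 2 * y ^ 1 = (x ^ 1 * y ^ 0) * (x ^ 1 * y ^ 1) := by ring
    have e2 : x ^ 1 * y ^ 0 = (-4) + (2)*t := by
      rw [pow_one, pow_zero, mul_one, v10]
    have e3 : x ^ 1 * y ^ 1 = (1/18)*t := by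
      rw [v11]
    rw [e1, e2, e3]
    linear_combination ((1/9)) * ht
  have v31 : x ^ 3 * y ^ 1 = (-8/3) + (14/9)*t := by
    have e1 : x ^ 3 * y ^ 1 = (x ^ 1 * y ^ 0) * (x ^ 2 * y ^ 1) := by ring
    have e2 : x ^ 1 * y ^ 0 = (-4) + (2)*t := by
      rw [pow_one, pow_zero, mul_one, v10]
    have e3 : x ^ 2 * y ^ 1 = (1/3) + (-2/9)*t := by
      rw [v21]
    rw [e1, e2, e3]
    linear_combination ((-4/9)) * ht
  have v42 : x ^ 4 * y ^ 2 = (7/27) + (-4/27)*t := by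
    have e1 : x ^ 4 * y ^ 2 = (x ^ 2 * y ^ 1) * (x ^ 2 * y ^ 1) := by ring
    have e2 : x ^ 2 * y ^ 1 = (1/3) + (-2/9)*t := by
      rw [v21]
    have e3 : x ^ 2 * y ^ 1 = (1/3) + (-2/9)*t := by
      rw [v21]
    rw [e1, e2]
    linear_combination ((4/81)) * ht
  fin_cases i
  · show p5A t 0 = p5a 0 * x ^ p5qx 0 * y ^ p5qy 0
    simp only [p5A, p5a, p5qx, p5qy, Matrix.cons_val]
    ring
  · show p5A t 1 = p5a 1 * x ^ p5qx 1 * y ^ p5qy 1
    simp only [p5A, p5a, p5qx, p5qy, Matrix.cons_val]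
    rw [v10]; ring
  · show p5A t 2 = p5a 2 * x ^ p5qx 2 * y ^ p5qy 2
    simp only [p5A, p5a, p5qx, p5qy, Matrix.cons_val]
    rw [v01]; ring
  · show p5A t 3 = p5a 3 * x ^ p5qx 3 * y ^ p5qy 3
    simp only [p5A, p5a, p5qx, p5qy, Matrix.cons_val]
    rw [mul_assoc, v31]; ring
  · show p5A t 4 = p5a 4 * x ^ p5qx 4 * y ^ p5qy 4
    simp only [p5A, p5a, p5qx, p5qy, Matrix.cons_val]
    rw [mul_assoc, v42]; ring
  · show p5A t 5 = p5a 5 * x ^ p5qx 5 * y ^ p5qy 5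
    simp only [p5A, p5a, p5qx, p5qy, Matrix.cons_val]
    rw [mul_assoc, v11]; ring
  · show p5A t 6 = p5a 6 * x ^ p5qx 6 * y ^ p5qy 6
    simp only [p5A, p5a, p5qx, p5qy, Matrix.cons_val]
    rw [mul_assoc, v21]; ring

/-- biorthogonal vectors give surjectivity -/
lemma surj_of_dual {n r : ℕ} (A N : Fin r → Fin n → ℝ) (R0 R1 : Fin r → Fin n → ℝ)
    (h00 : ∀ j j', ∑ i, A j i * R0 j' i = if j = j' then 1 else 0)
    (h01 : ∀ j j', ∑ i, A j i * R1 j' i = 0)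
    (h10 : ∀ j j', ∑ i, A j i * (R0 j' i * N j i) = 0)
    (h11 : ∀ j j', ∑ i, A j i * (R1 j' i * N j i) = if j = j' then 1 else 0)
    (b0 b1 : Fin r → ℝ) : ∃ ρ : Fin n → ℝ, ∀ j, ∑ i, A j i * ρ i = b0 j ∧
      ∑ i, A j i * (ρ i * N j i) = b1 j := by
  refine ⟨fun i => ∑ j', (b0 j' * R0 j' i + b1 j' * R1 j' i), fun j => ⟨?_, ?_⟩⟩
  · have h : ∑ i, A j i * (∑ j', (b0 j' * R0 j' i + b1 j' * R1 j' i)) =
        ∑ j', (b0 j' * ∑ i, A j i * R0 j' i + b1 j' * ∑ i, A j i * R1 j' i) := by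
      simp only [Finset.mul_sum, ← Finset.sum_add_distrib]
      rw [Finset.sum_comm]
      exact Finset.sum_congr rfl fun j' _ => Finset.sum_congr rfl fun i _ => by ring
    rw [h]
    simp only [h00, h01]
    simp
  · have h : ∑ i, A j i * ((∑ j', (b0 j' * R0 j' i + b1 j' * R1 j' i)) * N j i) =
        ∑ j', (b0 j' * ∑ i, A j i * (R0 j' i * N j i) +
          b1 j' * ∑ i, A j i * (R1 j' i * N j i)) := by
      simp only [Finset.mul_sum, Finset.sum_mul, ← Finset.sum_add_distrib]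
      rw [Finset.sum_comm]
      exact Finset.sum_congr rfl fun j' _ => Finset.sum_congr rfl fun i _ => by ring
    rw [h]
    simp only [h10, h11]
    simp

/-- the quadrilateral tile: `-3 + 4 x + 4 y + x ^ 2 y ^ 2 - 6 x y` -/
noncomputable def tileQ : Tile where
  m := 2
  r := 1
  qx := ![0, 1, 0, 2, 1]
  qy := ![0, 0, 1, 2, 1]
  a := ![-3, 4, 4, 1, -6]
  X := fun _ => 1
  Y := fun _ => 1
  m1 := fun _ => 1
  m2 := fun _ => 1
  A := fun _ => ![-3, 4, 4, 1, -6]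
  N := fun _ => ![0, 1, 1, 4, 2]
  M := fun _ => ![0, -1, 1, 0, 0]
  qx0 := rfl
  qy0 := rfl
  qx1 := rfl
  qy1 := rfl
  qx2 := rfl
  qy2 := rfl
  a_ne := by intro i; fin_cases i <;> norm_num
  X_ne := fun _ => one_ne_zero
  Y_ne := fun _ => one_ne_zero
  m_ne := fun _ => by norm_num
  hA := by intro j i; fin_cases i <;> norm_num
  hN := by intro j i; fin_cases i <;> norm_num
  hM := by intro j i; fin_cases i <;> norm_num
  s0 := by intro j; rw [sum5]; simp only [Matrix.cons_val]; norm_num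
  s1 := by intro j; rw [sum5]; simp only [Matrix.cons_val]; norm_num
  s2 := by intro j; rw [sum5]; simp only [Matrix.cons_val]; norm_num
  s3 := by intro j; rw [sum5]; simp only [Matrix.cons_val]; norm_num
  s4 := by intro j; rw [sum5]; simp only [Matrix.cons_val]; norm_num
  hT := by intro j; rw [sum5]; simp only [Matrix.cons_val]; norm_num
  hH := by intro j; rw [sum5]; simp only [Matrix.cons_val]; norm_num
  surj := by
    intro b0 b1
    refine ⟨![(b1 0 - b0 0) / 3, b1 0 / 4, 0, 0, 0], fun j => ?_⟩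
    rw [sum5, sum5]
    have hj : j = 0 := Subsingleton.elim _ _
    subst hj
    simp only [Matrix.cons_val]
    constructor <;> ring

/-- the two square roots of 3 -/
noncomputable def root5 : Fin 2 → ℝ := ![Real.sqrt 3, -Real.sqrt 3]

lemma root5_eq (j : Fin 2) : root5 j ^ 2 - 3 = 0 := by
  have h : Real.sqrt 3 ^ 2 = 3 := Real.sq_sqrt (by norm_num)
  fin_cases j
  · show Real.sqrt 3 ^ 2 - 3 = 0
    rw [h]; norm_num
  · show (-Real.sqrt 3) ^ 2 - 3 = 0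
    rw [neg_sq, h]; norm_num

lemma root5_ne (j j' : Fin 2) (h : j ≠ j') : root5 j = -root5 j' := by
  fin_cases j <;> fin_cases j'
  · exact absurd rfl h
  · show Real.sqrt 3 = - -Real.sqrt 3
    rw [neg_neg]
  · rfl
  · exact absurd rfl h

/-- the pentagon tile -/
noncomputable def tile5 : Tile where
  m := 4
  r := 2
  qx := p5qx
  qy := p5qy
  a := p5a
  X := fun j => p5X (root5 j)
  Y := fun j => p5Y (root5 j)
  m1 := fun j => p5m1 (root5 j)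
  m2 := fun j => p5m2 (root5 j)
  A := fun j => p5A (root5 j)
  N := fun j => p5N (root5 j)
  M := fun j => p5M (root5 j)
  qx0 := rfl
  qy0 := rfl
  qx1 := rfl
  qy1 := rfl
  qx2 := rfl
  qy2 := rfl
  a_ne := by intro i; fin_cases i <;> norm_num [p5a, Matrix.cons_val]
  X_ne := fun j => p5X_ne _ (root5_eq j)
  Y_ne := fun j => p5Y_ne _ (root5_eq j)
  m_ne := fun j => p5m_ne _ (root5_eq j)
  hA := fun j i => p5_A_eq _ (root5_eq j) i
  hN := by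
    intro j i
    fin_cases i <;> simp [p5N, p5m1, p5m2, p5qx, p5qy, Matrix.cons_val] <;> ring
  hM := by
    intro j i
    fin_cases i <;> simp [p5M, p5m1, p5m2, p5qx, p5qy, Matrix.cons_val] <;> ring
  s0 := fun j => p5_s0 _ (root5_eq j)
  s1 := fun j => p5_s1 _ (root5_eq j)
  s2 := fun j => p5_s2 _ (root5_eq j)
  s3 := fun j => p5_s3 _ (root5_eq j)
  s4 := fun j => p5_s4 _ (root5_eq j)
  hT := fun j => p5_T _ (root5_eq j)
  hH := fun j => p5_H _ (root5_eq j)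
  surj := by
    apply surj_of_dual _ _ (fun j => p5R0 (root5 j)) (fun j => p5R1 (root5 j))
    · intro j j'
      by_cases h : j = j'
      · subst h; rw [if_pos rfl]; exact p5_R0_t_F0 _ (root5_eq j)
      · rw [if_neg h, root5_ne j j' h]; exact p5_R0_t1_F0 _ (root5_eq j')
    · intro j j'
      by_cases h : j = j'
      · subst h; exact p5_R1_t_F0 _ (root5_eq j)
      · rw [root5_ne j j' h]; exact p5_R1_t1_F0 _ (root5_eq j')
    · intro j j'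
      by_cases h : j = j'
      · subst h; exact p5_R0_t_F1 _ (root5_eq j)
      · rw [root5_ne j j' h]; exact p5_R0_t1_F1 _ (root5_eq j')
    · intro j j'
      by_cases h : j = j'
      · subst h; rw [if_pos rfl]; exact p5_R1_t_F1 _ (root5_eq j)
      · rw [if_neg h, root5_ne j j' h]; exact p5_R1_t1_F1 _ (root5_eq j')

lemma exists_root6 : ∃ t : ℝ, t ^ 3 - 3 * t + 1 = 0 := by
  have hc : ContinuousOn (fun t : ℝ => t ^ 3 - 3 * t + 1) (Set.Icc 0 1) := by fun_prop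
  have h := intermediate_value_Icc' (by norm_num : (0 : ℝ) ≤ 1) hc
  have h0 : (0 : ℝ) ∈ Set.Icc ((fun t : ℝ => t ^ 3 - 3 * t + 1) 1)
      ((fun t : ℝ => t ^ 3 - 3 * t + 1) 0) := by norm_num
  obtain ⟨t, -, ht⟩ := h h0
  exact ⟨t, ht⟩

/-- the three roots of `t ^ 3 - 3 t + 1` -/
noncomputable def root6 : Fin 3 → ℝ :=
  ![exists_root6.choose, 2 - exists_root6.choose - exists_root6.choose ^ 2,
    exists_root6.choose ^ 2 - 2]

lemma root6_eq (j : Fin 3) : root6 j ^ 3 - 3 * root6 j + 1 = 0 := by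
  have ht := exists_root6.choose_spec
  set t := exists_root6.choose with hdef
  fin_cases j
  · exact ht
  · show (2 - t - t ^ 2) ^ 3 - 3 * (2 - t - t ^ 2) + 1 = 0
    linear_combination (3 - 3 * t ^ 2 - t ^ 3) * ht
  · show (t ^ 2 - 2) ^ 3 - 3 * (t ^ 2 - 2) + 1 = 0
    linear_combination (-1 - 3 * t + t ^ 3) * ht

lemma root6_next (j : Fin 3) : root6 (j + 1) = 2 - root6 j - root6 j ^ 2 := by
  have ht := exists_root6.choose_spec
  have h0 : root6 0 = exists_root6.choose := rfl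
  have h1 : root6 1 = 2 - exists_root6.choose - exists_root6.choose ^ 2 := rfl
  have h2 : root6 2 = exists_root6.choose ^ 2 - 2 := rfl
  set t := exists_root6.choose with hdef
  fin_cases j
  · show root6 1 = 2 - root6 0 - root6 0 ^ 2
    rw [h1, h0]
  · show root6 2 = 2 - root6 1 - root6 1 ^ 2
    rw [h2, h1]
    linear_combination (2 + t) * ht
  · show root6 0 = 2 - root6 2 - root6 2 ^ 2
    rw [h2, h0]
    linear_combination t * ht

lemma root6_next2 (j : Fin 3) : root6 (j + 2) = root6 j ^ 2 - 2 := by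
  have ht := exists_root6.choose_spec
  have h0 : root6 0 = exists_root6.choose := rfl
  have h1 : root6 1 = 2 - exists_root6.choose - exists_root6.choose ^ 2 := rfl
  have h2 : root6 2 = exists_root6.choose ^ 2 - 2 := rfl
  set t := exists_root6.choose with hdef
  fin_cases j
  · show root6 2 = root6 0 ^ 2 - 2
    rw [h2, h0]
  · show root6 0 = root6 1 ^ 2 - 2
    rw [h1, h0]
    linear_combination (-2 - t) * ht
  · show root6 1 = root6 2 ^ 2 - 2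
    rw [h2, h1]
    linear_combination (-t) * ht

lemma fin3_cases (j j' : Fin 3) : j = j' ∨ j = j' + 1 ∨ j = j' + 2 := by
  fin_cases j <;> fin_cases j' <;> decide

/-- the hexagon tile -/
noncomputable def tile6 : Tile where
  m := 6
  r := 3
  qx := p6qx
  qy := p6qy
  a := p6a
  X := fun j => p6X (root6 j)
  Y := fun j => p6Y (root6 j)
  m1 := fun j => p6m1 (root6 j)
  m2 := fun j => p6m2 (root6 j)
  A := fun j => p6A (root6 j)
  N := fun j => p6N (root6 j)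
  M := fun j => p6M (root6 j)
  qx0 := rfl
  qy0 := rfl
  qx1 := rfl
  qy1 := rfl
  qx2 := rfl
  qy2 := rfl
  a_ne := by intro i; fin_cases i <;> norm_num [p6a, Matrix.cons_val]
  X_ne := fun j => p6X_ne _ (root6_eq j)
  Y_ne := fun j => p6Y_ne _ (root6_eq j)
  m_ne := fun j => p6m_ne _ (root6_eq j)
  hA := fun j i => p6_A_eq _ (root6_eq j) i
  hN := by
    intro j i
    fin_cases i <;> simp [p6N, p6m1, p6m2, p6qx, p6qy, Matrix.cons_val] <;> ring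
  hM := by
    intro j i
    fin_cases i <;> simp [p6M, p6m1, p6m2, p6qx, p6qy, Matrix.cons_val] <;> ring
  s0 := fun j => p6_s0 _ (root6_eq j)
  s1 := fun j => p6_s1 _ (root6_eq j)
  s2 := fun j => p6_s2 _ (root6_eq j)
  s3 := fun j => p6_s3 _ (root6_eq j)
  s4 := fun j => p6_s4 _ (root6_eq j)
  hT := fun j => p6_T _ (root6_eq j)
  hH := fun j => p6_H _ (root6_eq j)
  surj := by
    have hne1 : ∀ j : Fin 3, j + 1 ≠ j := by decide
    have hne2 : ∀ j : Fin 3, j + 2 ≠ j := by decide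
    apply surj_of_dual _ _ (fun j => p6R0 (root6 j)) (fun j => p6R1 (root6 j))
    · intro j j'
      rcases fin3_cases j j' with h | h | h <;> subst h
      · rw [if_pos rfl]; exact p6_R0_t_F0 _ (root6_eq _)
      · rw [if_neg (hne1 _), root6_next]; exact p6_R0_t1_F0 _ (root6_eq _)
      · rw [if_neg (hne2 _), root6_next2]; exact p6_R0_t2_F0 _ (root6_eq _)
    · intro j j'
      rcases fin3_cases j j' with h | h | h <;> subst h
      · exact p6_R1_t_F0 _ (root6_eq _)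
      · rw [root6_next]; exact p6_R1_t1_F0 _ (root6_eq _)
      · rw [root6_next2]; exact p6_R1_t2_F0 _ (root6_eq _)
    · intro j j'
      rcases fin3_cases j j' with h | h | h <;> subst h
      · exact p6_R0_t_F1 _ (root6_eq _)
      · rw [root6_next]; exact p6_R0_t1_F1 _ (root6_eq _)
      · rw [root6_next2]; exact p6_R0_t2_F1 _ (root6_eq _)
    · intro j j'
      rcases fin3_cases j j' with h | h | h <;> subst h
      · rw [if_pos rfl]; exact p6_R1_t_F1 _ (root6_eq _)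
      · rw [if_neg (hne1 _), root6_next]; exact p6_R1_t1_F1 _ (root6_eq _)
      · rw [if_neg (hne2 _), root6_next2]; exact p6_R1_t2_F1 _ (root6_eq _)

end Pool.Agent.helper5.Cusp
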