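import Pool.Agent.helper5.Cusp.Base

set_option autoImplicit false
set_option maxRecDepth 100000

/-! Combinatorial data of a convex subdivision of the triangle with vertices `(0,0)`, `(15,0)`,
`(0,15)` containing 30 rigid tiles with 57 cusps in total. All tables are packed into
natural numbers. -/

namespace Pool.Agent.helper5.Cusp

/-- `i`-th entry of width `w` of the table `n` -/
def tb (n w i : ℕ) : ℕ := (n >>> (w * i)) % 2 ^ w

/-- type of a tile: 0 quadrilateral, 1 pentagon, 2 hexagon -/
def TY (f : ℕ) : ℕ := tb 759007273721876625 2 f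

/-- number of lattice points of a tile -/
def LEN (f : ℕ) : ℕ := 2 * TY f + 5

/-- point number `i` of tile `f` -/
def BB (f i : ℕ) : ℕ := tb 83568140538877420556868815033430839085347551437341679276389836337058320529513010710987567958538682866360038198041785811538918338855725046529619069100320596519128554688185308363409775356729533560718873078593603953170557949627852382779356625737553497792855730454044416551200439001517282382924546578776597097454538694796953501769755723939273205816215837744226552166179794183191181127094167133433209213429890358029416043300694899230436898227779219470783110176868116445205778779053374018230527000782445752719579229039865742569929871078762371374600043187065796864288357633944 7 (9 * f + i)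

/-- first exponent -/
def E1 (p : ℕ) : ℕ := tb 39755097751852631384366234701861222613104297556992565973132354825381673193324695506411190763234675416737625755381121818507821748625915662282260480 4 p

/-- second exponent -/
def E2 (p : ℕ) : ℕ := tb 6460551402936755644098445700795543485293076598202744469110819853585168281744204561318827059344135710622827239298380512659672899572457701308397140 4 p

/-- height -/
def NU (p : ℕ) : ℕ := tb 3654063994245629399170316175516790458400740285280492614231330587925883637484106264936473016515347239040411710577646078368219384572333242611573781203550445703610689583664074312269100388079048926156192915399641473263385150948173560852329363515494305541382374684626333246307438639114370379017236276613851285468476739337391222231088310319111869131705191997894170458159730422076783910646209692882192969780217866037558977550693307144394694409789189051809665618688284582528514164983445594841605739334849477111251222255714605772847134214067498058767732547320262031384007685945740774871630742 16 p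

/-- sign bit of the coefficient -/
def SG (p : ℕ) : ℕ := tb 1000663189760633326021964183499964484 1 p

/-- sign bits of the torus elements -/
def SI (f j : ℕ) : ℕ := tb 619121142213572188209777258 1 (3 * f + j)

/-- reference indices of the shared points -/
def TR (f j : ℕ) : ℕ := tb 615304961323121391553484532501787896887758964540479351693313246328857711965604257171997069428903862952067600 4 (3 * f + j)

/-- reference exponents (first coordinate) -/
def RX (c i : ℕ) : ℕ :=
  tb (if c = 0 then 0x12010 else if c = 1 then 0x2143010 else 0x321254010) 4 i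

/-- reference exponents (second coordinate) -/
def RY (c i : ℕ) : ℕ :=
  tb (if c = 0 then 0x12100 else if c = 1 then 0x1121100 else 0x211232100) 4 i

/-- sign bit of the reference coefficients -/
def RS (c i : ℕ) : ℕ := tb (if c = 0 then 17 else if c = 1 then 24 else 0) 1 i

/-- coordinates of the reference points of a tile -/
def px (f i : ℕ) : ℤ := E1 (BB f i)
def py (f i : ℕ) : ℤ := E2 (BB f i)
def pn (f i : ℕ) : ℤ := NU (BB f i)

def dt (f : ℕ) : ℤ := (px f 1 - px f 0) * (py f 2 - py f 0) - (py f 1 - py f 0) * (px f 2 - px f 0)

def N11 (f : ℕ) : ℤ := dt f * (py f 2 - py f 0)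
def N12 (f : ℕ) : ℤ := -(dt f * (px f 2 - px f 0))
def N21 (f : ℕ) : ℤ := -(dt f * (py f 1 - py f 0))
def N22 (f : ℕ) : ℤ := dt f * (px f 1 - px f 0)
def D1 (f : ℕ) : ℤ := -(N11 f * px f 0 + N12 f * py f 0)
def D2 (f : ℕ) : ℤ := -(N21 f * px f 0 + N22 f * py f 0)
def Q1 (f p : ℕ) : ℤ := N11 f * E1 p + N12 f * E2 p + D1 f
def Q2 (f p : ℕ) : ℤ := N21 f * E1 p + N22 f * E2 p + D2 f

/-- height of `p` above the affine function of the tile `f` -/
def HH (f p : ℕ) : ℤ :=
  NU p - pn f 0 - (pn f 1 - pn f 0) * Q1 f p - (pn f 2 - pn f 0) * Q2 f p

lemma ck_det : ∀ f < 30, N11 f * N22 f - N12 f * N21 f ≠ 0 := by decide +kernel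

lemma ck_lt : ∀ f < 30, ∀ i < LEN f, BB f i < 121 := by decide +kernel

lemma ck_ty : ∀ f < 30, TY f < 3 := by decide +kernel

lemma ck_x : ∀ f < 30, ∀ i < LEN f, Q1 f (BB f i) = RX (TY f) i := by decide +kernel

lemma ck_y : ∀ f < 30, ∀ i < LEN f, Q2 f (BB f i) = RY (TY f) i := by decide +kernel

lemma ck_h : ∀ f < 30, ∀ p < 121, 0 ≤ HH f p := by decide +kernel

lemma ck_h0 : ∀ f < 30, ∀ i < LEN f, HH f (BB f i) = 0 := by decide +kernel

lemma ck_h1 : ∀ f < 30, ∀ p < 121, HH f p = 0 → ∃ i < LEN f, BB f i = p := by
  decide +kernel

lemma ck_inj : ∀ f < 30, ∀ i < LEN f, ∀ j < LEN f, BB f i = BB f j → i = j := by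
  decide +kernel

lemma ck_sep : ∀ f < 30, ∀ f' < 30, f ≠ f' → ∀ i' < LEN f',
    BB f' i' ≠ BB f (LEN f - 1) := by decide +kernel

lemma ck_sg : ∀ f < 30, ∀ i < LEN f, (SG (BB f i) + SI f 0 + SI f 1 * RX (TY f) i +
    SI f 2 * RY (TY f) i + RS (TY f) i) % 2 = 0 := by decide +kernel

lemma ck_D : ∀ p < 121, E1 p + E2 p ≤ 15 := by decide +kernel

lemma ck_new : ∀ f < 30, ∀ i < LEN f, (i = TR f 0 ∨ i = TR f 1 ∨ i = TR f 2) ∨
    ∀ f' < f, ∀ i' < LEN f', BB f' i' ≠ BB f i := by decide +kernel

lemma ck_tr : ∀ f < 30,
    ((RX (TY f) (TR f 1) : ℤ) - RX (TY f) (TR f 0)) *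
      ((RY (TY f) (TR f 2) : ℤ) - RY (TY f) (TR f 0)) -
    ((RX (TY f) (TR f 2) : ℤ) - RX (TY f) (TR f 0)) *
      ((RY (TY f) (TR f 1) : ℤ) - RY (TY f) (TR f 0)) ≠ 0 := by decide +kernel

lemma ck_trlt : ∀ f < 30, ∀ j < 3, TR f j < LEN f := by decide +kernel

end Pool.Agent.helper5.Cusp
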