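import Pool.Agent.helper5.Cusp.Patch

set_option autoImplicit false

namespace Pool.Agent.helper5.Cusp

/-- A rigid tile: exponents `qx, qy` (the first three are the reference corner `(0,0)`, `(1,0)`,
`(0,1)`), coefficients `a`, positions `X, Y` of its `r` cusps and kernel directions `m1, m2`. -/
structure Tile where
  m : ℕ
  r : ℕ
  qx : Fin (m + 3) → ℕ
  qy : Fin (m + 3) → ℕ
  a : Fin (m + 3) → ℝ
  X : Fin r → ℝ
  Y : Fin r → ℝ
  m1 : Fin r → ℝ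
  m2 : Fin r → ℝ
  A : Fin r → Fin (m + 3) → ℝ
  N : Fin r → Fin (m + 3) → ℝ
  M : Fin r → Fin (m + 3) → ℝ
  qx0 : qx 0 = 0
  qy0 : qy 0 = 0
  qx1 : qx 1 = 1
  qy1 : qy 1 = 0
  qx2 : qx 2 = 0
  qy2 : qy 2 = 1
  a_ne : ∀ i, a i ≠ 0
  X_ne : ∀ j, X j ≠ 0
  Y_ne : ∀ j, Y j ≠ 0
  m_ne : ∀ j, m1 j ^ 2 + m2 j ^ 2 ≠ 0
  hA : ∀ j i, A j i = a i * X j ^ qx i * Y j ^ qy i
  hN : ∀ j i, N j i = m1 j * qx i + m2 j * qy i
  hM : ∀ j i, M j i = -m2 j * qx i + m1 j * qy i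
  s0 : ∀ j, ∑ i, A j i = 0
  s1 : ∀ j, ∑ i, A j i * N j i = 0
  s2 : ∀ j, ∑ i, A j i * M j i = 0
  s3 : ∀ j, ∑ i, A j i * (N j i * N j i) = 0
  s4 : ∀ j, ∑ i, A j i * (N j i * M j i) = 0
  hT : ∀ j, ∑ i, A j i * (N j i) ^ 3 ≠ 0
  hH : ∀ j, ∑ i, A j i * (M j i) ^ 2 ≠ 0
  surj : ∀ b0 b1 : Fin r → ℝ, ∃ ρ : Fin (m + 3) → ℝ, ∀ j, ∑ i, A j i * ρ i = b0 j ∧
      ∑ i, A j i * (ρ i * N j i) = b1 j

lemma Tile.A_ne (τ : Tile) (j : Fin τ.r) (i : Fin (τ.m + 3)) : τ.A j i ≠ 0 := by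
  rw [τ.hA]
  exact mul_ne_zero (mul_ne_zero (τ.a_ne i) (pow_ne_zero _ (τ.X_ne j))) (pow_ne_zero _ (τ.Y_ne j))

lemma Tile.hprop (τ : Tile) (j j' : Fin τ.r) (hne : j ≠ j') :
    ∃ i i', τ.A j i * τ.A j' i' ≠ τ.A j i' * τ.A j' i := by
  by_contra hcon
  push Not at hcon
  obtain ⟨ρ, hρ⟩ := τ.surj (fun k => if k = j then 1 else 0) (fun _ => 0)
  have h1 := (hρ j).1
  have h2 := (hρ j').1
  simp only [if_pos, if_neg (Ne.symm hne)] at h1 h2
  have h3 : (∑ i, τ.A j i * ρ i) * τ.A j' 0 = τ.A j 0 * ∑ i, τ.A j' i * ρ i := by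
    rw [Finset.sum_mul, Finset.mul_sum]
    refine Finset.sum_congr rfl fun i _ => ?_
    linear_combination ρ i * hcon i 0
  rw [h1, h2, one_mul, mul_zero] at h3
  exact τ.A_ne j' 0 h3

/-- Gluing tiles along a convex subdivision. -/
theorem glue {P T : Type} [Fintype P] [Fintype T] [DecidableEq T] (τ : T → Tile)
    (b : (f : T) → Fin ((τ f).m + 3) → P) (hb : ∀ f, Function.Injective (b f))
    (e1 e2 : P → ℕ) (ν : P → ℤ)
    (n11 n12 d1 n21 n22 d2 l0 l1 l2 : T → ℤ) (h : T → P → ℕ)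
    (q1 q2 : T → P → ℤ)
    (hq1 : ∀ f p, q1 f p = n11 f * e1 p + n12 f * e2 p + d1 f)
    (hq2 : ∀ f p, q2 f p = n21 f * e1 p + n22 f * e2 p + d2 f)
    (hdet : ∀ f, n11 f * n22 f - n12 f * n21 f ≠ 0)
    (hν : ∀ f p, ν p = h f p + l0 f + l1 f * q1 f p + l2 f * q2 f p)
    (hbx : ∀ f i, q1 f (b f i) = (τ f).qx i) (hby : ∀ f i, q2 f (b f i) = (τ f).qy i)
    (hh0 : ∀ f i, h f (b f i) = 0) (hh1 : ∀ f p, (∀ i, b f i ≠ p) → h f p ≠ 0)
    (hsep : ∀ f f', f ≠ f' → ∃ i, ∀ i', b f' i' ≠ b f i)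
    (sg : P → ℝ) (σ0 σ1 σ2 : T → ℝ) (hσ0 : ∀ f, σ0 f ^ 2 = 1) (hσ1 : ∀ f, σ1 f ^ 2 = 1)
    (hσ2 : ∀ f, σ2 f ^ 2 = 1)
    (hsg : ∀ f i, 0 < sg (b f i) * (σ0 f * σ1 f ^ (τ f).qx i * σ2 f ^ (τ f).qy i) * (τ f).a i)
    (hsg1 : ∀ p, sg p ^ 2 = 1)
    (hglue : ∀ g : (f : T) → Fin ((τ f).m + 3) → ℝ, ∃ L : P → ℝ, ∀ f, ∃ k0 k1 k2 : ℝ, ∀ i,
      L (b f i) = g f i + (k0 + k1 * (τ f).qx i + k2 * (τ f).qy i)) :
    ∃ (a : P → ℝ) (x y : (Σ f : T, Fin (τ f).r) → ℝ), (∀ k, x k ≠ 0) ∧ (∀ k, y k ≠ 0) ∧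
      (∀ k k', x k = x k' → y k = y k' → k = k') ∧
      ∀ k, MomentCusp (fun p => (e1 p : ℝ)) (fun p => (e2 p : ℝ))
        (fun p => a p * x k ^ e1 p * y k ^ e2 p) := by
  classical
  obtain ⟨L, hL⟩ := hglue (fun f i => Real.log |(τ f).a i|)
  choose k0 k1 k2 hk using hL
  set c0 : P → ℝ := fun p => sg p * Real.exp (L p) with hc0
  have hσ0' : ∀ f, σ0 f ≠ 0 := fun f h0 => by have := hσ0 f; rw [h0] at this; norm_num at this
  have hσ1' : ∀ f, σ1 f ≠ 0 := fun f h0 => by have := hσ1 f; rw [h0] at this; norm_num at this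
  have hσ2' : ∀ f, σ2 f ≠ 0 := fun f h0 => by have := hσ2 f; rw [h0] at this; norm_num at this
  have hc0b : ∀ f i, c0 (b f i) = σ0 f * Real.exp (k0 f) * (τ f).a i *
      ((σ1 f * Real.exp (k1 f)) ^ (τ f).qx i * (σ2 f * Real.exp (k2 f)) ^ (τ f).qy i) := by
    intro f i
    have ha := (τ f).a_ne i
    have e1' : Real.exp (L (b f i)) = |(τ f).a i| * Real.exp (k0 f) *
        Real.exp (k1 f) ^ (τ f).qx i * Real.exp (k2 f) ^ (τ f).qy i := by
      rw [hk, Real.exp_add, Real.exp_log (abs_pos.mpr ha), Real.exp_add, Real.exp_add,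
        ← Real.exp_nat_mul, ← Real.exp_nat_mul, mul_comm (k1 f), mul_comm (k2 f)]
      ring
    set s := σ0 f * σ1 f ^ (τ f).qx i * σ2 f ^ (τ f).qy i with hs
    have hs2 : s ^ 2 = 1 := by
      rw [hs, mul_pow, mul_pow, hσ0, ← pow_mul, ← pow_mul, mul_comm _ 2, mul_comm _ 2, pow_mul,
        pow_mul, hσ1, hσ2]
      simp
    have hsgs : sg (b f i) * |(τ f).a i| = s * (τ f).a i := by
      have h1 := hsg f i
      have h2 : (sg (b f i) * s) ^ 2 = 1 := by rw [mul_pow, hs2, hsg1]; norm_num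
      rcases mul_self_eq_one_iff.mp ((sq (sg (b f i) * s)).symm.trans h2) with h3 | h3
      · rw [h3, one_mul] at h1
        rw [abs_of_pos h1]
        have : sg (b f i) = s := by
          have : sg (b f i) * s * s = s := by rw [h3, one_mul]
          rw [mul_assoc, ← sq, hs2, mul_one] at this
          exact this
        rw [this]
      · rw [h3] at h1
        rw [abs_of_neg (by linarith)]
        have : sg (b f i) = -s := by
          have : sg (b f i) * s * s = -s := by rw [h3]; ring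
          rw [mul_assoc, ← sq, hs2, mul_one] at this
          exact this
        rw [this]; ring
    simp only [hc0]
    rw [e1']
    calc sg (b f i) * (|(τ f).a i| * Real.exp (k0 f) * Real.exp (k1 f) ^ (τ f).qx i *
          Real.exp (k2 f) ^ (τ f).qy i)
        = (sg (b f i) * |(τ f).a i|) * (Real.exp (k0 f) * Real.exp (k1 f) ^ (τ f).qx i *
          Real.exp (k2 f) ^ (τ f).qy i) := by ring
      _ = _ := by rw [hsgs, hs]; ring
  set lam : T → ℝ := fun f => σ0 f * Real.exp (k0 f) with hlam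
  have hlam0 : ∀ f, lam f ≠ 0 := fun f => mul_ne_zero (hσ0' f) (Real.exp_pos _).ne'
  have hu1 : ∀ f, σ1 f * Real.exp (k1 f) ≠ 0 := fun f => mul_ne_zero (hσ1' f) (Real.exp_pos _).ne'
  have hu2 : ∀ f, σ2 f * Real.exp (k2 f) ≠ 0 := fun f => mul_ne_zero (hσ2' f) (Real.exp_pos _).ne'
  let K := Σ f : T, Fin (τ f).r
  set X : K → ℝ := fun k => (τ k.1).X k.2 / (σ1 k.1 * Real.exp (k1 k.1)) with hX
  set Y : K → ℝ := fun k => (τ k.1).Y k.2 / (σ2 k.1 * Real.exp (k2 k.1)) with hY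
  set A : K → P → ℝ := fun k p => c0 p * X k ^ q1 k.1 p * Y k ^ q2 k.1 p * 0 ^ h k.1 p with hA
  set N : K → P → ℝ := fun k p => (τ k.1).m1 k.2 * q1 k.1 p + (τ k.1).m2 k.2 * q2 k.1 p with hN
  set M : K → P → ℝ := fun k p => -(τ k.1).m2 k.2 * q1 k.1 p + (τ k.1).m1 k.2 * q2 k.1 p with hM
  have hAb : ∀ (k : K) i, A k (b k.1 i) = lam k.1 * (τ k.1).A k.2 i := by
    rintro ⟨f, j⟩ i
    simp only [hA, hX, hY]
    rw [hh0, pow_zero, mul_one, hbx, hby, zpow_natCast, zpow_natCast, hc0b, (τ f).hA, div_pow,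
      div_pow]
    have v1 : (σ1 f * Real.exp (k1 f)) ^ (τ f).qx i ≠ 0 := pow_ne_zero _ (hu1 f)
    have v2 : (σ2 f * Real.exp (k2 f)) ^ (τ f).qy i ≠ 0 := pow_ne_zero _ (hu2 f)
    rw [hlam]
    generalize (σ1 f * Real.exp (k1 f)) ^ (τ f).qx i = u1 at *
    generalize (σ2 f * Real.exp (k2 f)) ^ (τ f).qy i = u2 at *
    field_simp
  have hA0 : ∀ (k : K) p, (∀ i, b k.1 i ≠ p) → A k p = 0 := by
    rintro ⟨f, j⟩ p hp
    simp only [hA]
    rw [zero_pow (hh1 f p hp), mul_zero]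
  have hNb : ∀ (k : K) i, N k (b k.1 i) = (τ k.1).N k.2 i := by
    rintro ⟨f, j⟩ i
    simp only [hN]
    rw [hbx, hby, (τ f).hN]
    push_cast
    ring
  have hMb : ∀ (k : K) i, M k (b k.1 i) = (τ k.1).M k.2 i := by
    rintro ⟨f, j⟩ i
    simp only [hM]
    rw [hbx, hby, (τ f).hM]
    push_cast
    ring
  have hsum : ∀ (k : K) (g : P → ℝ), ∑ p, A k p * g p =
      lam k.1 * ∑ i, (τ k.1).A k.2 i * g (b k.1 i) := by
    intro k g
    rw [Finset.mul_sum]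
    symm
    apply Fintype.sum_of_injective (b k.1) (hb k.1)
    · intro p hp
      rw [hA0 k p (fun i hi => hp ⟨i, hi⟩), zero_mul]
    · intro i
      rw [hAb]; ring
  have hxm : ∀ f j i, ((τ f).qx i : ℝ) = ((τ f).m1 j * (τ f).N j i - (τ f).m2 j * (τ f).M j i) /
      ((τ f).m1 j ^ 2 + (τ f).m2 j ^ 2) := by
    intro f j i
    have := (τ f).m_ne j
    rw [(τ f).hN, (τ f).hM]
    field_simp
    ring
  have hym : ∀ f j i, ((τ f).qy i : ℝ) = ((τ f).m2 j * (τ f).N j i + (τ f).m1 j * (τ f).M j i) /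
      ((τ f).m1 j ^ 2 + (τ f).m2 j ^ 2) := by
    intro f j i
    have := (τ f).m_ne j
    rw [(τ f).hN, (τ f).hM]
    field_simp
    ring
  apply patch e1 e2 ν c0 (fun k : K => n11 k.1) (fun k => n12 k.1) (fun k => d1 k.1)
    (fun k => n21 k.1) (fun k => n22 k.1) (fun k => d2 k.1) (fun k => l0 k.1) (fun k => l1 k.1)
    (fun k => l2 k.1) X Y (fun k => (τ k.1).m1 k.2) (fun k => (τ k.1).m2 k.2)
    (fun k => h k.1) (fun k => q1 k.1) (fun k => q2 k.1) (fun k p => hq1 k.1 p)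
    (fun k p => hq2 k.1 p) (fun k => hdet k.1) (fun k p => hν k.1 p)
    (fun k => div_ne_zero ((τ k.1).X_ne k.2) (hu1 k.1))
    (fun k => div_ne_zero ((τ k.1).Y_ne k.2) (hu2 k.1)) (fun k => (τ k.1).m_ne k.2)
    A N M (fun k p => rfl) (fun k p => rfl) (fun k p => rfl)
  · intro k
    have := hsum k (fun _ => 1)
    simp only [mul_one] at this
    rw [this, (τ k.1).s0, mul_zero]
  · intro k
    rw [hsum k (N k)]
    simp only [hNb]
    rw [(τ k.1).s1, mul_zero]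
  · intro k
    rw [hsum k (M k)]
    simp only [hMb]
    rw [(τ k.1).s2, mul_zero]
  · intro k
    rw [hsum k (fun p => N k p * N k p)]
    simp only [hNb]
    rw [(τ k.1).s3, mul_zero]
  · intro k
    rw [hsum k (fun p => N k p * M k p)]
    simp only [hNb, hMb]
    rw [(τ k.1).s4, mul_zero]
  · intro k
    rw [hsum k (fun p => N k p ^ 3)]
    simp only [hNb]
    exact mul_ne_zero (hlam0 _) ((τ k.1).hT k.2)
  · intro k
    rw [hsum k (fun p => M k p ^ 2)]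
    simp only [hMb]
    exact mul_ne_zero (hlam0 _) ((τ k.1).hH k.2)
  · intro b0 b1
    choose ρf hρf using fun f => (τ f).surj (fun j => b0 ⟨f, j⟩ / lam f)
      (fun j => b1 ⟨f, j⟩ / lam f)
    obtain ⟨ρ, hρ⟩ := hglue ρf
    refine ⟨ρ, ?_⟩
    rintro ⟨f, j⟩
    obtain ⟨κ0, κ1, κ2, hκ⟩ := hρ f
    obtain ⟨r0, r1⟩ := hρf f j
    have aff : ∀ i, ρ (b f i) = ρf f i + (κ0 + ((κ1 * (τ f).m1 j + κ2 * (τ f).m2 j) /
        ((τ f).m1 j ^ 2 + (τ f).m2 j ^ 2)) * (τ f).N j i + ((-κ1 * (τ f).m2 j + κ2 * (τ f).m1 j) /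
        ((τ f).m1 j ^ 2 + (τ f).m2 j ^ 2)) * (τ f).M j i) := by
      intro i
      rw [hκ, hxm f j i, hym f j i]
      ring
    generalize ((κ1 * (τ f).m1 j + κ2 * (τ f).m2 j) /
        ((τ f).m1 j ^ 2 + (τ f).m2 j ^ 2)) = c1 at aff
    generalize ((-κ1 * (τ f).m2 j + κ2 * (τ f).m1 j) /
        ((τ f).m1 j ^ 2 + (τ f).m2 j ^ 2)) = c2 at aff
    constructor
    · rw [hsum ⟨f, j⟩ ρ]
      have : ∑ i, (τ f).A j i * ρ (b f i) = ∑ i, (τ f).A j i * ρf f i + κ0 * ∑ i, (τ f).A j i +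
          c1 * ∑ i, (τ f).A j i * (τ f).N j i + c2 * ∑ i, (τ f).A j i * (τ f).M j i := by
        rw [Finset.mul_sum, Finset.mul_sum, Finset.mul_sum, ← Finset.sum_add_distrib,
          ← Finset.sum_add_distrib, ← Finset.sum_add_distrib]
        exact Finset.sum_congr rfl fun i _ => by rw [aff]; ring
      simp only
      rw [this, r0, (τ f).s0, (τ f).s1, (τ f).s2]
      have := hlam0 f
      field_simp
      ring
    · rw [hsum ⟨f, j⟩ (fun p => ρ p * N ⟨f, j⟩ p)]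
      have : ∑ i, (τ f).A j i * (ρ (b f i) * N ⟨f, j⟩ (b f i)) =
          ∑ i, (τ f).A j i * (ρf f i * (τ f).N j i) + κ0 * ∑ i, (τ f).A j i * (τ f).N j i +
          c1 * ∑ i, (τ f).A j i * ((τ f).N j i * (τ f).N j i) +
          c2 * ∑ i, (τ f).A j i * ((τ f).N j i * (τ f).M j i) := by
        rw [Finset.mul_sum, Finset.mul_sum, Finset.mul_sum, ← Finset.sum_add_distrib,
          ← Finset.sum_add_distrib, ← Finset.sum_add_distrib]
        refine Finset.sum_congr rfl fun i _ => ?_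
        have hn := hNb ⟨f, j⟩ i
        simp only at hn
        rw [aff, hn]; ring
      simp only
      rw [this, r1, (τ f).s1, (τ f).s3, (τ f).s4]
      have := hlam0 f
      field_simp
      ring
  · rintro ⟨f, j⟩ ⟨f', j'⟩ hne
    by_cases hff : f = f'
    · subst hff
      have hjj : j ≠ j' := fun h0 => hne (by rw [h0])
      obtain ⟨i, i', hii⟩ := (τ f).hprop j j' hjj
      refine ⟨b f i, b f i', ?_⟩
      have v1 := hAb ⟨f, j⟩ i
      have v2 := hAb ⟨f, j'⟩ i'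
      have v3 := hAb ⟨f, j⟩ i'
      have v4 := hAb ⟨f, j'⟩ i
      simp only at v1 v2 v3 v4
      rw [v1, v2, v3, v4]
      intro h0
      apply hii
      have h1 : lam f ^ 2 ≠ 0 := pow_ne_zero 2 (hlam0 f)
      apply mul_left_cancel₀ h1
      linear_combination h0
    · obtain ⟨i, hi⟩ := hsep f f' hff
      obtain ⟨i', hi'⟩ := hsep f' f (Ne.symm hff)
      refine ⟨b f i, b f' i', ?_⟩
      rw [hA0 ⟨f, j⟩ (b f' i') hi', hA0 ⟨f', j'⟩ (b f i) hi, mul_zero]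
      have v1 := hAb ⟨f, j⟩ i
      have v2 := hAb ⟨f', j'⟩ i'
      simp only at v1 v2
      rw [v1, v2]
      exact mul_ne_zero (mul_ne_zero (hlam0 f) ((τ f).A_ne j i))
        (mul_ne_zero (hlam0 f') ((τ f').A_ne j' i'))

end Pool.Agent.helper5.Cusp
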