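import Mathlib

set_option autoImplicit false

namespace Pool.Agent.helper5.Cusp

open Filter Topology

/-- the unknowns: relative variations of the coefficients, positions (two numbers per cusp) and
slopes of the cuspidal tangents -/
abbrev Unk (P K : Type) : Type := (P → ℝ) × (K → ℝ) × (K → ℝ) × (K → ℝ)

variable {P K : Type} [Fintype P] [Fintype K]

/-- term of the deformed polynomial with exponent `p`, seen from the cusp `k` -/
noncomputable def trm (G : K → P → ℝ) (h : K → P → ℕ) (N M : K → P → ℝ)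
    (x : ℝ × Unk P K) (k : K) (p : P) : ℝ :=
  G k p * (1 + x.2.1 p) * x.1 ^ h k p *
    Real.exp (x.2.2.1 k * N k p + x.2.2.2.1 k * M k p)

/-- constant part of the test functions -/
def pa (i : Fin 5) (N M : ℝ) : ℝ := ![1, N, M, N * N, N * M] i

/-- slope part of the test functions -/
def pb (i : Fin 5) (N M : ℝ) : ℝ := ![0, 0, 0, M * N, M * M] i

/-- the system of equations -/
noncomputable def sys (G : K → P → ℝ) (h : K → P → ℕ) (N M : K → P → ℝ)
    (x : ℝ × Unk P K) : K → Fin 5 → ℝ := fun k i =>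
  ∑ p, trm G h N M x k p * (pa i (N k p) (M k p) + x.2.2.2.2 k * pb i (N k p) (M k p))

lemma contDiff_trm (G : K → P → ℝ) (h : K → P → ℕ) (N M : K → P → ℝ) (k : K) (p : P) :
    ContDiff ℝ 1 (fun x : ℝ × Unk P K => trm G h N M x k p) := by
  unfold trm
  fun_prop

lemma contDiff_sys (G : K → P → ℝ) (h : K → P → ℕ) (N M : K → P → ℝ) :
    ContDiff ℝ 1 (fun x : ℝ × Unk P K => sys G h N M x) := by
  unfold sys
  refine contDiff_pi.mpr fun k => contDiff_pi.mpr fun i => ?_
  refine ContDiff.sum fun p _ => ?_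
  refine (contDiff_trm G h N M k p).mul ?_
  fun_prop

lemma hasDerivAt_line (G : K → P → ℝ) (h : K → P → ℕ) (N M : K → P → ℝ) (z : Unk P K)
    (k : K) (i : Fin 5) :
    HasDerivAt (fun s : ℝ => sys G h N M ((0 : ℝ), s • z) k i)
      (∑ p, (G k p * 0 ^ h k p) * ((z.1 p + z.2.1 k * N k p + z.2.2.1 k * M k p) *
        pa i (N k p) (M k p) + z.2.2.2 k * pb i (N k p) (M k p))) 0 := by
  unfold sys trm
  refine HasDerivAt.fun_sum fun p _ => ?_
  simp only [Prod.smul_fst, Prod.smul_snd, Pi.smul_apply, smul_eq_mul]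
  have h1 : HasDerivAt (fun s : ℝ => 1 + s * z.1 p) (z.1 p) 0 := by
    simpa using ((hasDerivAt_id (0 : ℝ)).mul_const (z.1 p)).const_add 1
  have h2 : HasDerivAt (fun s : ℝ => Real.exp (s * z.2.1 k * N k p + s * z.2.2.1 k * M k p))
      (z.2.1 k * N k p + z.2.2.1 k * M k p) 0 := by
    have h3 : HasDerivAt (fun s : ℝ => s * z.2.1 k * N k p + s * z.2.2.1 k * M k p)
        (z.2.1 k * N k p + z.2.2.1 k * M k p) 0 := by
      have a1 := ((hasDerivAt_id (0 : ℝ)).mul_const (z.2.1 k)).mul_const (N k p)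
      have a2 := ((hasDerivAt_id (0 : ℝ)).mul_const (z.2.2.1 k)).mul_const (M k p)
      simpa using a1.fun_add a2
    have h4 := h3.exp
    simpa using h4
  have h3 : HasDerivAt (fun s : ℝ => pa i (N k p) (M k p) + s * z.2.2.2 k *
      pb i (N k p) (M k p)) (z.2.2.2 k * pb i (N k p) (M k p)) 0 := by
    simpa using (((hasDerivAt_id (0 : ℝ)).mul_const (z.2.2.2 k)).mul_const
      (pb i (N k p) (M k p))).const_add (pa i (N k p) (M k p))
  have h5 := ((((h1.const_mul (G k p)).mul_const ((0 : ℝ) ^ h k p)).fun_mul h2).fun_mul h3)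
  refine h5.congr_deriv ?_
  simp
  ring

/-- The patchworking step: solutions for small positive `t` near the limit solution. -/
theorem ift_step (G : K → P → ℝ) (h : K → P → ℕ) (N M : K → P → ℝ)
    (A : K → P → ℝ) (hA : ∀ k p, A k p = G k p * 0 ^ h k p)
    (e0 : ∀ k, ∑ p, A k p = 0) (e1 : ∀ k, ∑ p, A k p * N k p = 0)
    (e2 : ∀ k, ∑ p, A k p * M k p = 0) (e3 : ∀ k, ∑ p, A k p * (N k p * N k p) = 0)
    (e4 : ∀ k, ∑ p, A k p * (N k p * M k p) = 0)
    (hT : ∀ k, ∑ p, A k p * (N k p) ^ 3 ≠ 0) (hH : ∀ k, ∑ p, A k p * (M k p) ^ 2 ≠ 0)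
    (surj : ∀ b0 b1 : K → ℝ, ∃ ρ : P → ℝ, ∀ k, ∑ p, A k p * ρ p = b0 k ∧
      ∑ p, A k p * (ρ p * N k p) = b1 k)
    (W : Set (ℝ × Unk P K)) (hW : W ∈ 𝓝 ((0 : ℝ), (0 : Unk P K))) :
    ∃ t : ℝ, 0 < t ∧ ∃ z : Unk P K, (t, z) ∈ W ∧ ∀ k i, sys G h N M (t, z) k i = 0 := by
  classical
  set Φ : ℝ × Unk P K → ℝ × (K → Fin 5 → ℝ) := fun x => (x.1, sys G h N M x) with hΦ
  have hcd : ContDiff ℝ 1 Φ := contDiff_fst.prodMk (contDiff_sys G h N M)
  have hstrict : HasStrictFDerivAt Φ (fderiv ℝ Φ (0, 0)) (0, 0) :=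
    hcd.contDiffAt.hasStrictFDerivAt (by norm_num)
  set Φ' := fderiv ℝ Φ (0, 0) with hΦ'
  have hfd : HasFDerivAt Φ Φ' (0, 0) := hstrict.hasFDerivAt
  -- the system at the base point
  have hbase : ∀ k i, sys G h N M ((0 : ℝ), (0 : Unk P K)) k i = 0 := by
    intro k i
    have : sys G h N M ((0 : ℝ), (0 : Unk P K)) k i =
        ∑ p, A k p * pa i (N k p) (M k p) := by
      unfold sys trm
      refine Finset.sum_congr rfl fun p _ => ?_
      simp [hA]
    rw [this]
    fin_cases i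
    · simpa [pa] using e0 k
    · simpa [pa] using e1 k
    · simpa [pa] using e2 k
    · simpa [pa] using e3 k
    · simpa [pa] using e4 k
  -- derivative along the unknowns
  have hdir : ∀ z : Unk P K, Φ' (0, z) = (0, fun k i => ∑ p, A k p *
      ((z.1 p + z.2.1 k * N k p + z.2.2.1 k * M k p) *
        pa i (N k p) (M k p) + z.2.2.2 k * pb i (N k p) (M k p))) := by
    intro z
    have hline : HasDerivAt (fun s : ℝ => (((0 : ℝ), s • z) : ℝ × Unk P K)) (0, z) 0 := by
      have a1 : HasDerivAt (fun s : ℝ => s • z) z 0 := by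
        simpa using (hasDerivAt_id (0 : ℝ)).smul_const z
      exact (hasDerivAt_const (0 : ℝ) (0 : ℝ)).prodMk a1
    have hfd' : HasFDerivAt Φ Φ' ((fun s : ℝ => (((0 : ℝ), s • z) : ℝ × Unk P K)) 0) := by
      simpa using hfd
    have hcomp : HasDerivAt (fun s : ℝ => Φ ((0 : ℝ), s • z)) (Φ' (0, z)) 0 :=
      hfd'.comp_hasDerivAt 0 hline
    have hexp : HasDerivAt (fun s : ℝ => Φ ((0 : ℝ), s • z)) (0, fun k i => ∑ p, A k p *
      ((z.1 p + z.2.1 k * N k p + z.2.2.1 k * M k p) *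
        pa i (N k p) (M k p) + z.2.2.2 k * pb i (N k p) (M k p))) 0 := by
      refine (hasDerivAt_const (0 : ℝ) (0 : ℝ)).prodMk ?_
      rw [hasDerivAt_pi]
      intro k
      rw [hasDerivAt_pi]
      intro i
      have := hasDerivAt_line G h N M z k i
      simp only [← hA] at this
      exact this
    exact hcomp.unique hexp
  -- derivative in the direction of t
  have hfst : ∀ v, (Φ' v).1 = v.1 := by
    intro v
    have a1 : HasFDerivAt (fun x => (Φ x).1) ((ContinuousLinearMap.fst ℝ ℝ _).comp Φ') (0, 0) :=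
      (ContinuousLinearMap.fst ℝ ℝ (K → Fin 5 → ℝ)).hasFDerivAt.comp (0, 0) hfd
    have a2 : HasFDerivAt (fun x : ℝ × Unk P K => (Φ x).1)
        (ContinuousLinearMap.fst ℝ ℝ (Unk P K)) (0, 0) := hasFDerivAt_fst
    have a3 := a1.unique a2
    have a4 := congrArg (fun L => L v) a3
    simpa using a4
  have hsurj : LinearMap.range (Φ' : ℝ × Unk P K →ₗ[ℝ] ℝ × (K → Fin 5 → ℝ)) = ⊤ := by
    rw [LinearMap.range_eq_top]
    rintro ⟨τ, b⟩
    set w := (Φ' (1, 0)).2 with hw
    set b' : K → Fin 5 → ℝ := fun k i => b k i - τ * w k i with hb'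
    obtain ⟨ρ, hρ⟩ := surj (fun k => b' k 0) (fun k => b' k 1)
    set β : K → ℝ := fun k => (b' k 2 - ∑ p, A k p * (ρ p * M k p)) / (∑ p, A k p * (M k p) ^ 2)
      with hβ
    set α : K → ℝ := fun k => (b' k 3 - ∑ p, A k p * (ρ p * (N k p * N k p)) -
      β k * ∑ p, A k p * (M k p * (N k p * N k p))) / (∑ p, A k p * (N k p) ^ 3) with hα
    set μ : K → ℝ := fun k => (b' k 4 - ∑ p, A k p * (ρ p * (N k p * M k p)) -
      α k * (∑ p, A k p * (N k p * (N k p * M k p))) -
      β k * ∑ p, A k p * (M k p * (N k p * M k p))) / (∑ p, A k p * (M k p) ^ 2) with hμ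
    refine ⟨(τ, (ρ, α, β, μ)), ?_⟩
    have hsplit : ((τ, (ρ, α, β, μ)) : ℝ × Unk P K) = τ • (1, 0) + (0, (ρ, α, β, μ)) := by
      simp
    have hcoe : (Φ' : ℝ × Unk P K →ₗ[ℝ] ℝ × (K → Fin 5 → ℝ)) (τ, (ρ, α, β, μ)) =
        Φ' (τ, (ρ, α, β, μ)) := rfl
    rw [hcoe, hsplit, map_add, map_smul, hdir]
    have h1 : Φ' (1, 0) = (1, w) := Prod.ext (hfst _) rfl
    rw [h1]
    refine Prod.ext (by simp) ?_
    funext k i
    simp only [Prod.snd_add, Prod.smul_snd, Pi.add_apply, Pi.smul_apply, smul_eq_mul]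
    have hMk := hH k
    have hTk := hT k
    have key : ∀ c0 c1 : ℝ, c0 = c1 - τ * w k i → τ * w k i + c0 = c1 := by
      intro c0 c1 h; rw [h]; ring
    apply key
    -- expand the sum
    have expand : ∀ (a1 a2 : P → ℝ), ∑ p, A k p * ((ρ p + α k * N k p + β k * M k p) * a1 p +
        μ k * a2 p) = ∑ p, A k p * (ρ p * a1 p) + α k * ∑ p, A k p * (N k p * a1 p) +
        β k * ∑ p, A k p * (M k p * a1 p) + μ k * ∑ p, A k p * a2 p := by
      intro a1 a2
      rw [Finset.mul_sum, Finset.mul_sum, Finset.mul_sum, ← Finset.sum_add_distrib,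
        ← Finset.sum_add_distrib, ← Finset.sum_add_distrib]
      refine Finset.sum_congr rfl fun p _ => ?_
      ring
    have hT' : ∑ p, A k p * (N k p * (N k p * N k p)) = ∑ p, A k p * (N k p) ^ 3 :=
      Finset.sum_congr rfl fun p _ => by ring
    have hH' : ∑ p, A k p * (M k p * M k p) = ∑ p, A k p * (M k p) ^ 2 :=
      Finset.sum_congr rfl fun p _ => by ring
    have hMN : ∑ p, A k p * (M k p * N k p) = 0 := by
      rw [← e4 k]; exact Finset.sum_congr rfl fun p _ => by ring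
    have hfin : ∀ j : Fin 5, ∑ p, A k p * ((ρ p + α k * N k p + β k * M k p) *
        pa j (N k p) (M k p) + μ k * pb j (N k p) (M k p)) = b' k j := by
      intro j
      rw [expand]
      fin_cases j
      · simp only [pa, pb, Fin.zero_eta, Matrix.cons_val_zero, mul_one, mul_zero,
          Finset.sum_const_zero, add_zero]
        rw [(hρ k).1, e1, e2]; ring
      · simp only [pa, pb, Fin.mk_one, Matrix.cons_val_one, Matrix.cons_val_zero, mul_zero,
          Finset.sum_const_zero, add_zero]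
        rw [(hρ k).2, e3, hMN]; ring
      · simp only [pa, pb, Fin.reduceFinMk, Matrix.cons_val, mul_zero,
          Finset.sum_const_zero, add_zero]
        rw [e4, hH', hβ]
        simp only
        field_simp
        ring
      · simp only [pa, pb, Fin.reduceFinMk, Matrix.cons_val]
        rw [hT', hMN, hα]
        simp only
        field_simp
        ring
      · simp only [pa, pb, Fin.reduceFinMk, Matrix.cons_val]
        rw [hH', hμ]
        simp only
        field_simp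
        ring
    rw [hfin i]
  have hmap := hstrict.map_nhds_eq_of_surj hsurj
  have hΦ0 : Φ (0, 0) = (0, 0) := by
    refine Prod.ext rfl ?_
    funext k i
    exact hbase k i
  rw [hΦ0] at hmap
  have himg : Φ '' W ∈ 𝓝 ((0 : ℝ), (0 : K → Fin 5 → ℝ)) := by
    rw [← hmap]
    exact Filter.image_mem_map hW
  have htend : Tendsto (fun t : ℝ => ((t, 0) : ℝ × (K → Fin 5 → ℝ))) (𝓝[>] 0) (𝓝 (0, 0)) := by
    have : Tendsto (fun t : ℝ => ((t, 0) : ℝ × (K → Fin 5 → ℝ))) (𝓝 0) (𝓝 (0, 0)) := by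
      have hc : Continuous (fun t : ℝ => ((t, 0) : ℝ × (K → Fin 5 → ℝ))) := by fun_prop
      exact hc.tendsto 0
    exact this.mono_left nhdsWithin_le_nhds
  obtain ⟨t, ht1, ht2⟩ := ((htend.eventually himg).and self_mem_nhdsWithin).exists
  obtain ⟨⟨t', z⟩, hz, heq⟩ := ht1
  have h1 : t' = t := congrArg Prod.fst heq
  have h2 : sys G h N M (t', z) = 0 := congrArg Prod.snd heq
  subst h1
  exact ⟨t', ht2, z, hz, fun k i => congrFun (congrFun h2 k) i⟩

end Pool.Agent.helper5.Cusp
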