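import Pool.Agent.helper5.Cusp.Pull
import Pool.Agent.helper5.Cusp.Ift

set_option autoImplicit false

namespace Pool.Agent.helper5.Cusp

open Filter Topology

/-- affine change of the exponents in the moment form of a cusp -/
lemma momentCusp_of_affine {P : Type} [Fintype P] (f1 f2 e C N M : P → ℝ)
    (va vb vc wa wb wc μ κ : ℝ) (hN : ∀ p, N p = va * f1 p + vb * f2 p + vc)
    (hM : ∀ p, M p = wa * f1 p + wb * f2 p + wc) (hdet : va * wb - vb * wa ≠ 0)
    (hκ : κ ≠ 0) (hC : ∀ p, C p = κ * e p)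
    (s0 : ∑ p, e p = 0) (s1 : ∑ p, e p * N p = 0) (s2 : ∑ p, e p * M p = 0)
    (s3 : ∑ p, e p * ((N p + μ * M p) * N p) = 0) (s4 : ∑ p, e p * ((N p + μ * M p) * M p) = 0)
    (s5 : ∑ p, e p * (N p + μ * M p) ^ 3 ≠ 0) (s6 : ∑ p, e p * (M p) ^ 2 ≠ 0) :
    MomentCusp f1 f2 C := by
  set D := va * wb - vb * wa with hD
  have hf1 : ∀ p, f1 p = (wb / D) * N p + (-vb / D) * M p + (vb * wc - wb * vc) / D := by
    intro p
    rw [hN, hM]
    field_simp
    rw [hD]
    ring
  have hf2 : ∀ p, f2 p = (-wa / D) * N p + (va / D) * M p + (wa * vc - va * wc) / D := by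
    intro p
    rw [hN, hM]
    field_simp
    rw [hD]
    ring
  have t1 : ∑ p, e p * f1 p = 0 := by
    have : ∑ p, e p * f1 p = (wb / D) * ∑ p, e p * N p + (-vb / D) * ∑ p, e p * M p +
        (vb * wc - wb * vc) / D * ∑ p, e p := by
      rw [Finset.mul_sum, Finset.mul_sum, Finset.mul_sum, ← Finset.sum_add_distrib,
        ← Finset.sum_add_distrib]
      exact Finset.sum_congr rfl fun p _ => by rw [hf1]; ring
    rw [this, s0, s1, s2]; ring
  have t2 : ∑ p, e p * f2 p = 0 := by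
    have : ∑ p, e p * f2 p = (-wa / D) * ∑ p, e p * N p + (va / D) * ∑ p, e p * M p +
        (wa * vc - va * wc) / D * ∑ p, e p := by
      rw [Finset.mul_sum, Finset.mul_sum, Finset.mul_sum, ← Finset.sum_add_distrib,
        ← Finset.sum_add_distrib]
      exact Finset.sum_congr rfl fun p _ => by rw [hf2]; ring
    rw [this, s0, s1, s2]; ring
  have t3 : ∑ p, e p * (N p + μ * M p) = 0 := by
    have : ∑ p, e p * (N p + μ * M p) = ∑ p, e p * N p + μ * ∑ p, e p * M p := by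
      rw [Finset.mul_sum, ← Finset.sum_add_distrib]
      exact Finset.sum_congr rfl fun p _ => by ring
    rw [this, s1, s2]; ring
  have t4 : ∑ p, e p * (N p + μ * M p) ^ 2 = 0 := by
    have : ∑ p, e p * (N p + μ * M p) ^ 2 = ∑ p, e p * ((N p + μ * M p) * N p) +
        μ * ∑ p, e p * ((N p + μ * M p) * M p) := by
      rw [Finset.mul_sum, ← Finset.sum_add_distrib]
      exact Finset.sum_congr rfl fun p _ => by ring
    rw [this, s3, s4]; ring
  have hn : ∀ p, f1 p * (va + μ * wa) + f2 p * (vb + μ * wb) =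
      (N p + μ * M p) - (vc + μ * wc) := by
    intro p; rw [hN, hM]; ring
  have lift : ∀ g : P → ℝ, ∑ p, C p * g p = κ * ∑ p, e p * g p := by
    intro g
    rw [Finset.mul_sum]
    exact Finset.sum_congr rfl fun p _ => by rw [hC]; ring
  refine ⟨?_, ?_, ?_, ?_, va + μ * wa, vb + μ * wb, ?_, ?_, ?_⟩
  · have := lift (fun _ => 1)
    simp only [mul_one] at this
    rw [this, s0, mul_zero]
  · rw [lift, t1, mul_zero]
  · rw [lift, t2, mul_zero]
  · by_contra hcon
    push Not at hcon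
    obtain ⟨c1, c2, c3⟩ := hcon
    rw [lift] at c1 c2 c3
    have c1' := (mul_eq_zero.mp c1).resolve_left hκ
    have c2' := (mul_eq_zero.mp c2).resolve_left hκ
    have c3' := (mul_eq_zero.mp c3).resolve_left hκ
    apply s6
    have : ∑ p, e p * (M p) ^ 2 = wa ^ 2 * ∑ p, e p * f1 p ^ 2 +
        2 * wa * wb * ∑ p, e p * (f1 p * f2 p) + wb ^ 2 * ∑ p, e p * f2 p ^ 2 +
        2 * wa * wc * ∑ p, e p * f1 p + 2 * wb * wc * ∑ p, e p * f2 p + wc ^ 2 * ∑ p, e p := by
      rw [Finset.mul_sum, Finset.mul_sum, Finset.mul_sum, Finset.mul_sum, Finset.mul_sum,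
        Finset.mul_sum, ← Finset.sum_add_distrib, ← Finset.sum_add_distrib,
        ← Finset.sum_add_distrib, ← Finset.sum_add_distrib, ← Finset.sum_add_distrib]
      exact Finset.sum_congr rfl fun p _ => by rw [hM]; ring
    rw [this, c1', c2', c3', t1, t2, s0]; ring
  · rw [lift]
    have : ∑ p, e p * ((f1 p * (va + μ * wa) + f2 p * (vb + μ * wb)) * f1 p) =
        (wb / D) * ∑ p, e p * ((N p + μ * M p) * N p) +
        (-vb / D) * ∑ p, e p * ((N p + μ * M p) * M p) +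
        (vb * wc - wb * vc) / D * ∑ p, e p * (N p + μ * M p) +
        (-(vc + μ * wc)) * ∑ p, e p * f1 p := by
      rw [Finset.mul_sum, Finset.mul_sum, Finset.mul_sum, Finset.mul_sum,
        ← Finset.sum_add_distrib, ← Finset.sum_add_distrib, ← Finset.sum_add_distrib]
      refine Finset.sum_congr rfl fun p _ => ?_
      rw [hn, hf1]; ring
    rw [this, s3, s4, t3, t1]; ring
  · rw [lift]
    have : ∑ p, e p * ((f1 p * (va + μ * wa) + f2 p * (vb + μ * wb)) * f2 p) =
        (-wa / D) * ∑ p, e p * ((N p + μ * M p) * N p) +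
        (va / D) * ∑ p, e p * ((N p + μ * M p) * M p) +
        (wa * vc - va * wc) / D * ∑ p, e p * (N p + μ * M p) +
        (-(vc + μ * wc)) * ∑ p, e p * f2 p := by
      rw [Finset.mul_sum, Finset.mul_sum, Finset.mul_sum, Finset.mul_sum,
        ← Finset.sum_add_distrib, ← Finset.sum_add_distrib, ← Finset.sum_add_distrib]
      refine Finset.sum_congr rfl fun p _ => ?_
      rw [hn, hf2]; ring
    rw [this, s3, s4, t3, t2]; ring
  · rw [lift]
    apply mul_ne_zero hκ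
    have : ∑ p, e p * (f1 p * (va + μ * wa) + f2 p * (vb + μ * wb)) ^ 3 =
        ∑ p, e p * (N p + μ * M p) ^ 3 - 3 * (vc + μ * wc) * ∑ p, e p * (N p + μ * M p) ^ 2 +
        3 * (vc + μ * wc) ^ 2 * ∑ p, e p * (N p + μ * M p) - (vc + μ * wc) ^ 3 * ∑ p, e p := by
      rw [Finset.mul_sum, Finset.mul_sum, Finset.mul_sum, ← Finset.sum_sub_distrib,
        ← Finset.sum_add_distrib, ← Finset.sum_sub_distrib]
      refine Finset.sum_congr rfl fun p _ => ?_
      rw [hn]; ring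
    rw [this, t3, t4, s0]
    simpa using s5

lemma exp_zpow_real (x : ℝ) (n : ℤ) : Real.exp x ^ n = Real.exp (x * n) := by
  rw [← Real.rpow_intCast, ← Real.exp_mul]

/-- The patchworking theorem. -/
theorem patch {P K : Type} [Fintype P] [Fintype K] (e1 e2 : P → ℕ) (ν : P → ℤ) (c0 : P → ℝ)
    (n11 n12 d1 n21 n22 d2 l0 l1 l2 : K → ℤ) (X Y m1 m2 : K → ℝ) (h : K → P → ℕ)
    (q1 q2 : K → P → ℤ)
    (hq1 : ∀ k p, q1 k p = n11 k * e1 p + n12 k * e2 p + d1 k)
    (hq2 : ∀ k p, q2 k p = n21 k * e1 p + n22 k * e2 p + d2 k)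
    (hdet : ∀ k, n11 k * n22 k - n12 k * n21 k ≠ 0)
    (hν : ∀ k p, ν p = h k p + l0 k + l1 k * q1 k p + l2 k * q2 k p)
    (hX : ∀ k, X k ≠ 0) (hY : ∀ k, Y k ≠ 0) (hm : ∀ k, m1 k ^ 2 + m2 k ^ 2 ≠ 0)
    (A N M : K → P → ℝ)
    (hA : ∀ k p, A k p = c0 p * X k ^ q1 k p * Y k ^ q2 k p * 0 ^ h k p)
    (hN : ∀ k p, N k p = m1 k * q1 k p + m2 k * q2 k p)
    (hM : ∀ k p, M k p = -m2 k * q1 k p + m1 k * q2 k p)
    (s0 : ∀ k, ∑ p, A k p = 0) (s1 : ∀ k, ∑ p, A k p * N k p = 0)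
    (s2 : ∀ k, ∑ p, A k p * M k p = 0) (s3 : ∀ k, ∑ p, A k p * (N k p * N k p) = 0)
    (s4 : ∀ k, ∑ p, A k p * (N k p * M k p) = 0)
    (hT : ∀ k, ∑ p, A k p * (N k p) ^ 3 ≠ 0) (hH : ∀ k, ∑ p, A k p * (M k p) ^ 2 ≠ 0)
    (surj : ∀ b0 b1 : K → ℝ, ∃ ρ : P → ℝ, ∀ k, ∑ p, A k p * ρ p = b0 k ∧
      ∑ p, A k p * (ρ p * N k p) = b1 k)
    (hprop : ∀ k k', k ≠ k' → ∃ p p', A k p * A k' p' ≠ A k p' * A k' p) :
    ∃ (a : P → ℝ) (x y : K → ℝ), (∀ k, x k ≠ 0) ∧ (∀ k, y k ≠ 0) ∧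
      (∀ k k', x k = x k' → y k = y k' → k = k') ∧
      ∀ k, MomentCusp (fun p => (e1 p : ℝ)) (fun p => (e2 p : ℝ))
        (fun p => a p * x k ^ e1 p * y k ^ e2 p) := by
  classical
  set G : K → P → ℝ := fun k p => c0 p * X k ^ q1 k p * Y k ^ q2 k p with hG
  have hcont : ∀ k p, Continuous (fun x : ℝ × Unk P K => trm G h N M x k p) :=
    fun k p => (contDiff_trm G h N M k p).continuous
  have hbase : ∀ k p, trm G h N M ((0 : ℝ), (0 : Unk P K)) k p = A k p := by
    intro k p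
    rw [hA]
    simp [trm, hG]
  have W1 : ∀ᶠ x in 𝓝 ((0 : ℝ), (0 : Unk P K)), ∀ k,
      ∑ p, trm G h N M x k p * (N k p + x.2.2.2.2 k * M k p) ^ 3 ≠ 0 := by
    rw [Filter.eventually_all]
    intro k
    have hc : Continuous (fun x : ℝ × Unk P K =>
        ∑ p, trm G h N M x k p * (N k p + x.2.2.2.2 k * M k p) ^ 3) := by
      refine continuous_finsetSum _ fun p _ => ?_
      refine (hcont k p).mul ?_
      fun_prop
    apply hc.continuousAt.eventually_ne
    simp only [hbase]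
    simpa using hT k
  have W2 : ∀ᶠ x in 𝓝 ((0 : ℝ), (0 : Unk P K)), ∀ k,
      ∑ p, trm G h N M x k p * (M k p) ^ 2 ≠ 0 := by
    rw [Filter.eventually_all]
    intro k
    have hc : Continuous (fun x : ℝ × Unk P K =>
        ∑ p, trm G h N M x k p * (M k p) ^ 2) := by
      refine continuous_finsetSum _ fun p _ => ?_
      exact (hcont k p).mul continuous_const
    apply hc.continuousAt.eventually_ne
    simp only [hbase]
    exact hH k
  have W3 : ∀ᶠ x in 𝓝 ((0 : ℝ), (0 : Unk P K)), ∀ k k', k ≠ k' → ∃ p p',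
      trm G h N M x k p * trm G h N M x k' p' ≠ trm G h N M x k p' * trm G h N M x k' p := by
    rw [Filter.eventually_all]
    intro k
    rw [Filter.eventually_all]
    intro k'
    by_cases hk : k = k'
    · exact Filter.Eventually.of_forall fun x hx => absurd hk hx
    · obtain ⟨p, p', hpp⟩ := hprop k k' hk
      have hc : Continuous (fun x : ℝ × Unk P K =>
          trm G h N M x k p * trm G h N M x k' p' - trm G h N M x k p' * trm G h N M x k' p) :=
        ((hcont k p).mul (hcont k' p')).sub ((hcont k p').mul (hcont k' p))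
      have : ∀ᶠ x in 𝓝 ((0 : ℝ), (0 : Unk P K)), trm G h N M x k p * trm G h N M x k' p' -
          trm G h N M x k p' * trm G h N M x k' p ≠ 0 := by
        apply hc.continuousAt.eventually_ne
        simp only [hbase]
        exact sub_ne_zero.mpr hpp
      filter_upwards [this] with x hx _
      exact ⟨p, p', sub_ne_zero.mp hx⟩
  obtain ⟨t, ht, z, ⟨⟨hz1, hz2⟩, hz3⟩, hsys⟩ := ift_step G h N M A hA s0 s1 s2 s3 s4 hT hH surj _
    ((W1.and W2).and W3)
  simp only at hz1 hz2 hz3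
  obtain ⟨ρ, α, β, μ⟩ := z
  set e : K → P → ℝ := fun k p => trm G h N M (t, (ρ, α, β, μ)) k p with he
  have he' : ∀ k p, e k p = c0 p * X k ^ q1 k p * Y k ^ q2 k p * (1 + ρ p) * t ^ h k p *
      Real.exp (α k * N k p + β k * M k p) := by
    intro k p; simp [he, trm, hG]
  have ht0 : t ≠ 0 := ht.ne'
  set X' : K → ℝ := fun k => X k * Real.exp (α k * m1 k - β k * m2 k) * t ^ (-l1 k) with hX'
  set Y' : K → ℝ := fun k => Y k * Real.exp (α k * m2 k + β k * m1 k) * t ^ (-l2 k) with hY'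
  have hX0 : ∀ k, X' k ≠ 0 := fun k =>
    mul_ne_zero (mul_ne_zero (hX k) (Real.exp_pos _).ne') (zpow_ne_zero _ ht0)
  have hY0 : ∀ k, Y' k ≠ 0 := fun k =>
    mul_ne_zero (mul_ne_zero (hY k) (Real.exp_pos _).ne') (zpow_ne_zero _ ht0)
  set x : K → ℝ := fun k => X' k ^ n11 k * Y' k ^ n21 k with hx
  set y : K → ℝ := fun k => X' k ^ n12 k * Y' k ^ n22 k with hy
  have hx0 : ∀ k, x k ≠ 0 := fun k => mul_ne_zero (zpow_ne_zero _ (hX0 k)) (zpow_ne_zero _ (hY0 k))
  have hy0 : ∀ k, y k ≠ 0 := fun k => mul_ne_zero (zpow_ne_zero _ (hX0 k)) (zpow_ne_zero _ (hY0 k))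
  set a : P → ℝ := fun p => c0 p * (1 + ρ p) * t ^ ν p with ha
  set κ : K → ℝ := fun k => X' k ^ (-d1 k) * Y' k ^ (-d2 k) * t ^ l0 k with hκ
  have hκ0 : ∀ k, κ k ≠ 0 := fun k => mul_ne_zero (mul_ne_zero (zpow_ne_zero _ (hX0 k))
    (zpow_ne_zero _ (hY0 k))) (zpow_ne_zero _ ht0)
  have hval : ∀ k p, a p * x k ^ e1 p * y k ^ e2 p = κ k * e k p := by
    intro k p
    have hxe : x k ^ e1 p * y k ^ e2 p = X' k ^ (q1 k p) * X' k ^ (-d1 k) *
        (Y' k ^ (q2 k p) * Y' k ^ (-d2 k)) := by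
      simp only [hx, hy]
      rw [← zpow_add₀ (hX0 k), ← zpow_add₀ (hY0 k), mul_pow, mul_pow, ← zpow_natCast,
        ← zpow_natCast, ← zpow_natCast, ← zpow_natCast, ← zpow_mul, ← zpow_mul, ← zpow_mul,
        ← zpow_mul, hq1, hq2]
      have r1 : n11 k * (e1 p : ℤ) + n12 k * (e2 p : ℤ) + d1 k + -d1 k =
          n11 k * (e1 p : ℤ) + n12 k * (e2 p : ℤ) := by ring
      have r2 : n21 k * (e1 p : ℤ) + n22 k * (e2 p : ℤ) + d2 k + -d2 k =
          n21 k * (e1 p : ℤ) + n22 k * (e2 p : ℤ) := by ring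
      rw [r1, r2, zpow_add₀ (hX0 k), zpow_add₀ (hY0 k)]
      ring
    have hXq : X' k ^ q1 k p = X k ^ q1 k p * Real.exp ((α k * m1 k - β k * m2 k) * q1 k p) *
        t ^ (-l1 k * q1 k p) := by
      simp only [hX']
      rw [mul_zpow, mul_zpow, ← zpow_mul, exp_zpow_real]
    have hYq : Y' k ^ q2 k p = Y k ^ q2 k p * Real.exp ((α k * m2 k + β k * m1 k) * q2 k p) *
        t ^ (-l2 k * q2 k p) := by
      simp only [hY']
      rw [mul_zpow, mul_zpow, ← zpow_mul, exp_zpow_real]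
    have hexp : Real.exp (α k * N k p + β k * M k p) =
        Real.exp ((α k * m1 k - β k * m2 k) * q1 k p) *
        Real.exp ((α k * m2 k + β k * m1 k) * q2 k p) := by
      rw [← Real.exp_add, hN, hM]
      congr 1
      ring
    have htp : t ^ ν p * t ^ (-l1 k * q1 k p) * t ^ (-l2 k * q2 k p) =
        t ^ l0 k * t ^ h k p := by
      rw [← zpow_natCast t (h k p), ← zpow_add₀ ht0, ← zpow_add₀ ht0, ← zpow_add₀ ht0, hν k p]
      congr 1
      ring
    rw [mul_assoc, hxe, he', hexp, hXq, hYq]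
    simp only [ha, hκ]
    linear_combination (c0 p * (1 + ρ p) * (X k ^ q1 k p *
      Real.exp ((α k * m1 k - β k * m2 k) * q1 k p)) * (Y k ^ q2 k p *
      Real.exp ((α k * m2 k + β k * m1 k) * q2 k p)) * X' k ^ (-d1 k) * Y' k ^ (-d2 k)) * htp
  refine ⟨a, x, y, hx0, hy0, ?_, ?_⟩
  · intro k k' hxx hyy
    by_contra hne
    obtain ⟨p, p', hpp⟩ := hz3 k k' hne
    apply hpp
    change e k p * e k' p' = e k p' * e k' p
    have v1 := hval k p
    have v2 := hval k' p'
    have v3 := hval k p'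
    have v4 := hval k' p
    rw [hxx, hyy] at v1 v3
    rw [v4] at v1
    rw [v2] at v3
    have : κ k * κ k' * (e k p * e k' p' - e k p' * e k' p) = 0 := by
      linear_combination (-κ k' * e k' p') * v1 + (κ k' * e k' p) * v3
    have := (mul_eq_zero.mp this).resolve_left (mul_ne_zero (hκ0 k) (hκ0 k'))
    exact sub_eq_zero.mp this
  · intro k
    have hs : ∀ i, ∑ p, e k p * (pa i (N k p) (M k p) + μ k * pb i (N k p) (M k p)) = 0 :=
      fun i => hsys k i
    apply momentCusp_of_affine _ _ (e k) _ (N k) (M k)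
      (m1 k * n11 k + m2 k * n21 k) (m1 k * n12 k + m2 k * n22 k) (m1 k * d1 k + m2 k * d2 k)
      (-m2 k * n11 k + m1 k * n21 k) (-m2 k * n12 k + m1 k * n22 k) (-m2 k * d1 k + m1 k * d2 k)
      (μ k) (κ k)
    · intro p
      rw [hN, hq1, hq2]; push_cast; ring
    · intro p
      rw [hM, hq1, hq2]; push_cast; ring
    · have hd : ((n11 k : ℝ) * n22 k - n12 k * n21 k) ≠ 0 := by exact_mod_cast hdet k
      have : (m1 k * n11 k + m2 k * n21 k) * (-m2 k * n12 k + m1 k * n22 k) -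
          (m1 k * n12 k + m2 k * n22 k) * (-m2 k * n11 k + m1 k * n21 k) =
          (m1 k ^ 2 + m2 k ^ 2) * ((n11 k : ℝ) * n22 k - n12 k * n21 k) := by ring
      rw [this]
      exact mul_ne_zero (hm k) hd
    · exact hκ0 k
    · exact fun p => hval k p
    · simpa [pa, pb] using hs 0
    · simpa [pa, pb] using hs 1
    · simpa [pa, pb] using hs 2
    · have := hs 3
      simp only [pa, pb, Matrix.cons_val] at this
      rw [← this]
      exact Finset.sum_congr rfl fun p _ => by ring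
    · have := hs 4
      simp only [pa, pb, Matrix.cons_val] at this
      rw [← this]
      exact Finset.sum_congr rfl fun p _ => by ring
    · exact hz1 k
    · exact hz2 k

end Pool.Agent.helper5.Cusp
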