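import Mathlib

set_option autoImplicit false

namespace Pool.Agent.helper5.Cusp

open MvPolynomial

/-- The local condition of the frozen statement: `p` is an ordinary cusp of `f`. -/
def CuspAt (f : MvPolynomial (Fin 2) ℝ) (p : Fin 2 → ℝ) : Prop :=
  MvPolynomial.eval p f = 0 ∧
  (∀ i : Fin 2, MvPolynomial.eval p (MvPolynomial.pderiv i f) = 0) ∧
  (∃ i j : Fin 2,
    MvPolynomial.eval p (MvPolynomial.pderiv i (MvPolynomial.pderiv j f)) ≠ 0) ∧
  (∃ v : Fin 2 → ℝ, v ≠ 0 ∧
    (∀ i : Fin 2, ∑ j : Fin 2,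
      MvPolynomial.eval p (MvPolynomial.pderiv i (MvPolynomial.pderiv j f)) * v j = 0) ∧
    (∑ i : Fin 2, ∑ j : Fin 2, ∑ k : Fin 2,
      v i * v j * v k *
        MvPolynomial.eval p (MvPolynomial.pderiv i
          (MvPolynomial.pderiv j (MvPolynomial.pderiv k f)))) ≠ 0)

/-- Moment form of a cusp: `C p` are the values of the monomials of a polynomial with exponents
`(p1 p, p2 p)` at a point of the real torus. -/
structure MomentCusp {P : Type} [Fintype P] (p1 p2 C : P → ℝ) : Prop where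
  m00 : ∑ p, C p = 0
  m10 : ∑ p, C p * p1 p = 0
  m01 : ∑ p, C p * p2 p = 0
  hess : (∑ p, C p * p1 p ^ 2 ≠ 0) ∨ (∑ p, C p * (p1 p * p2 p) ≠ 0) ∨
    (∑ p, C p * p2 p ^ 2 ≠ 0)
  dir : ∃ n1 n2 : ℝ, (∑ p, C p * ((p1 p * n1 + p2 p * n2) * p1 p) = 0) ∧
    (∑ p, C p * ((p1 p * n1 + p2 p * n2) * p2 p) = 0) ∧
    (∑ p, C p * (p1 p * n1 + p2 p * n2) ^ 3 ≠ 0)

/-- product of a polynomial in the first and a polynomial in the second variable -/
noncomputable def sep (u w : Polynomial ℝ) : MvPolynomial (Fin 2) ℝ :=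
  Polynomial.aeval (X 0) u * Polynomial.aeval (X 1) w

lemma pderiv_aeval_X (i j : Fin 2) (u : Polynomial ℝ) :
    pderiv i (Polynomial.aeval (X j : MvPolynomial (Fin 2) ℝ) u) =
      if i = j then Polynomial.aeval (X j) (Polynomial.derivative u) else 0 := by
  rw [Derivation.map_aeval]
  rcases eq_or_ne i j with h | h
  · subst h; simp
  · simp [pderiv_X, h, Ne.symm h]

lemma pderiv_zero_sep (u w : Polynomial ℝ) :
    pderiv 0 (sep u w) = sep (Polynomial.derivative u) w := by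
  unfold sep
  rw [Derivation.leibniz, pderiv_aeval_X, pderiv_aeval_X]
  simp [mul_comm]

lemma pderiv_one_sep (u w : Polynomial ℝ) :
    pderiv 1 (sep u w) = sep u (Polynomial.derivative w) := by
  unfold sep
  rw [Derivation.leibniz, pderiv_aeval_X, pderiv_aeval_X]
  simp

lemma eval_sep (u w : Polynomial ℝ) (p : Fin 2 → ℝ) :
    MvPolynomial.eval p (sep u w) = u.eval (p 0) * w.eval (p 1) := by
  unfold sep
  rw [map_mul]
  congr 1
  · rw [← MvPolynomial.coe_aeval_eq_eval, RingHom.coe_coe, ← Polynomial.aeval_algHom_apply]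
    simp
  · rw [← MvPolynomial.coe_aeval_eq_eval, RingHom.coe_coe, ← Polynomial.aeval_algHom_apply]
    simp

/-- derivatives of a power of `g` at a point -/
lemma eval_deriv_pow (g : Polynomial ℝ) (ξ x r s w : ℝ) (h0 : g.eval ξ = x)
    (h1 : (Polynomial.derivative g).eval ξ = r * x)
    (h2 : (Polynomial.derivative (Polynomial.derivative g)).eval ξ = s * x)
    (h3 : (Polynomial.derivative (Polynomial.derivative (Polynomial.derivative g))).eval ξ = w * x)
    (m : ℕ) :
    (g ^ m).eval ξ = x ^ m ∧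
    (Polynomial.derivative (g ^ m)).eval ξ = x ^ m * (m * r) ∧
    (Polynomial.derivative (Polynomial.derivative (g ^ m))).eval ξ =
      x ^ m * ((m ^ 2 - m) * r ^ 2 + m * s) ∧
    (Polynomial.derivative (Polynomial.derivative (Polynomial.derivative (g ^ m)))).eval ξ =
      x ^ m * ((m ^ 3 - 3 * m ^ 2 + 2 * m) * r ^ 3 + 3 * (m ^ 2 - m) * r * s + m * w) := by
  induction m with
  | zero => simp
  | succ m ih =>
    obtain ⟨i0, i1, i2, i3⟩ := ih
    refine ⟨?_, ?_, ?_, ?_⟩
    · rw [pow_succ, Polynomial.eval_mul, i0, h0, pow_succ]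
    · rw [pow_succ, Polynomial.derivative_mul, Polynomial.eval_add, Polynomial.eval_mul,
        Polynomial.eval_mul, i0, i1, h0, h1]
      push_cast
      ring
    · rw [pow_succ, Polynomial.derivative_mul, Polynomial.derivative_add,
        Polynomial.derivative_mul, Polynomial.derivative_mul]
      simp only [Polynomial.eval_add, Polynomial.eval_mul]
      rw [i0, i1, i2, h0, h1, h2]
      push_cast
      ring
    · rw [pow_succ, Polynomial.derivative_mul, Polynomial.derivative_add,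
        Polynomial.derivative_mul, Polynomial.derivative_mul, Polynomial.derivative_add,
        Polynomial.derivative_add, Polynomial.derivative_add,
        Polynomial.derivative_mul, Polynomial.derivative_mul, Polynomial.derivative_mul]
      simp only [Polynomial.eval_add, Polynomial.eval_mul]
      rw [i0, i1, i2, i3, h0, h1, h2, h3]
      push_cast
      ring

/-- the composed polynomial -/
noncomputable def pull {P : Type} [Fintype P] (e1 e2 : P → ℕ) (a : P → ℝ)
    (g1 g2 : Polynomial ℝ) : MvPolynomial (Fin 2) ℝ :=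
  ∑ p, C (a p) * sep (g1 ^ e1 p) (g2 ^ e2 p)

lemma eval_sum_sep {P : Type} [Fintype P] (a : P → ℝ) (u w : P → Polynomial ℝ)
    (pt : Fin 2 → ℝ) :
    MvPolynomial.eval pt (∑ p, C (a p) * sep (u p) (w p)) =
      ∑ p, a p * ((u p).eval (pt 0) * (w p).eval (pt 1)) := by
  rw [map_sum]
  refine Finset.sum_congr rfl fun p _ => ?_
  rw [map_mul, MvPolynomial.eval_C, eval_sep]

lemma pderiv0_sum_sep {P : Type} [Fintype P] (a : P → ℝ) (u w : P → Polynomial ℝ) :
    pderiv 0 (∑ p, C (a p) * sep (u p) (w p)) =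
      ∑ p, C (a p) * sep (Polynomial.derivative (u p)) (w p) := by
  rw [map_sum]
  refine Finset.sum_congr rfl fun p _ => ?_
  rw [pderiv_C_mul, pderiv_zero_sep]

lemma pderiv1_sum_sep {P : Type} [Fintype P] (a : P → ℝ) (u w : P → Polynomial ℝ) :
    pderiv 1 (∑ p, C (a p) * sep (u p) (w p)) =
      ∑ p, C (a p) * sep (u p) (Polynomial.derivative (w p)) := by
  rw [map_sum]
  refine Finset.sum_congr rfl fun p _ => ?_
  rw [pderiv_C_mul, pderiv_one_sep]

theorem cuspAt_pull {P : Type} [Fintype P] (e1 e2 : P → ℕ) (a : P → ℝ)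
    (g1 g2 : Polynomial ℝ) (pt : Fin 2 → ℝ) (x y : ℝ) (hx : x ≠ 0) (hy : y ≠ 0)
    (h1 : g1.eval (pt 0) = x) (h2 : g2.eval (pt 1) = y)
    (d1 : (Polynomial.derivative g1).eval (pt 0) ≠ 0)
    (d2 : (Polynomial.derivative g2).eval (pt 1) ≠ 0)
    (hm : MomentCusp (fun p => (e1 p : ℝ)) (fun p => (e2 p : ℝ))
      (fun p => a p * x ^ e1 p * y ^ e2 p)) :
    CuspAt (pull e1 e2 a g1 g2) pt := by
  obtain ⟨m00, m10, m01, hess, n1, n2, k1, k2, cub⟩ := hm
  obtain ⟨r, hr⟩ : ∃ r, (Polynomial.derivative g1).eval (pt 0) = r * x :=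
    ⟨(Polynomial.derivative g1).eval (pt 0) / x, by field_simp⟩
  obtain ⟨s, hs⟩ : ∃ s, (Polynomial.derivative (Polynomial.derivative g1)).eval (pt 0) = s * x :=
    ⟨(Polynomial.derivative (Polynomial.derivative g1)).eval (pt 0) / x, by field_simp⟩
  obtain ⟨w, hw⟩ : ∃ w, (Polynomial.derivative (Polynomial.derivative
      (Polynomial.derivative g1))).eval (pt 0) = w * x :=
    ⟨(Polynomial.derivative (Polynomial.derivative
      (Polynomial.derivative g1))).eval (pt 0) / x, by field_simp⟩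
  obtain ⟨r', hr'⟩ : ∃ r, (Polynomial.derivative g2).eval (pt 1) = r * y :=
    ⟨(Polynomial.derivative g2).eval (pt 1) / y, by field_simp⟩
  obtain ⟨s', hs'⟩ : ∃ s, (Polynomial.derivative (Polynomial.derivative g2)).eval (pt 1) = s * y :=
    ⟨(Polynomial.derivative (Polynomial.derivative g2)).eval (pt 1) / y, by field_simp⟩
  obtain ⟨w', hw'⟩ : ∃ w, (Polynomial.derivative (Polynomial.derivative
      (Polynomial.derivative g2))).eval (pt 1) = w * y :=
    ⟨(Polynomial.derivative (Polynomial.derivative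
      (Polynomial.derivative g2))).eval (pt 1) / y, by field_simp⟩
  have hr0 : r ≠ 0 := by rintro rfl; exact d1 (by rw [hr]; ring)
  have hr0' : r' ≠ 0 := by rintro rfl; exact d2 (by rw [hr']; ring)
  have A := eval_deriv_pow g1 (pt 0) x r s w h1 hr hs hw
  have B := eval_deriv_pow g2 (pt 1) y r' s' w' h2 hr' hs' hw'
  have A0 := fun m => (A m).1
  have A1 := fun m => (A m).2.1
  have A2 := fun m => (A m).2.2.1
  have A3 := fun m => (A m).2.2.2
  have B0 := fun m => (B m).1
  have B1 := fun m => (B m).2.1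
  have B2 := fun m => (B m).2.2.1
  have B3 := fun m => (B m).2.2.2
  clear A B hw hw' hs hs' hr hr'
  set c : P → ℝ := fun p => a p * x ^ e1 p * y ^ e2 p with hc
  have S00 : ∑ p, c p = 0 := m00
  have S10 : ∑ p, c p * e1 p = 0 := m10
  have S01 : ∑ p, c p * e2 p = 0 := m01
  set S20 := ∑ p, c p * (e1 p : ℝ) ^ 2 with hS20
  set S11 := ∑ p, c p * ((e1 p : ℝ) * e2 p) with hS11
  set S02 := ∑ p, c p * (e2 p : ℝ) ^ 2 with hS02
  set S30 := ∑ p, c p * (e1 p : ℝ) ^ 3 with hS30
  set S21 := ∑ p, c p * ((e1 p : ℝ) ^ 2 * e2 p) with hS21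
  set S12 := ∑ p, c p * ((e1 p : ℝ) * (e2 p : ℝ) ^ 2) with hS12
  set S03 := ∑ p, c p * (e2 p : ℝ) ^ 3 with hS03
  have K1 : n1 * S20 + n2 * S11 = 0 := by
    rw [← k1, hS20, hS11, Finset.mul_sum, Finset.mul_sum, ← Finset.sum_add_distrib]
    refine Finset.sum_congr rfl fun p _ => ?_
    ring
  have K2 : n1 * S11 + n2 * S02 = 0 := by
    rw [← k2, hS02, hS11, Finset.mul_sum, Finset.mul_sum, ← Finset.sum_add_distrib]
    refine Finset.sum_congr rfl fun p _ => ?_
    ring
  have K3 : n1 ^ 3 * S30 + 3 * n1 ^ 2 * n2 * S21 + 3 * n1 * n2 ^ 2 * S12 + n2 ^ 3 * S03 ≠ 0 := by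
    intro h
    apply cub
    rw [← h, hS30, hS21, hS12, hS03, Finset.mul_sum, Finset.mul_sum, Finset.mul_sum,
      Finset.mul_sum, ← Finset.sum_add_distrib, ← Finset.sum_add_distrib,
      ← Finset.sum_add_distrib]
    refine Finset.sum_congr rfl fun p _ => ?_
    ring
  -- evaluations
  have F00 : MvPolynomial.eval pt (pull e1 e2 a g1 g2) = 0 := by
    unfold pull
    rw [eval_sum_sep, ← S00]
    refine Finset.sum_congr rfl fun p _ => ?_
    rw [A0, B0, hc]; ring
  have F10 : MvPolynomial.eval pt (pderiv 0 (pull e1 e2 a g1 g2)) = 0 := by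
    unfold pull
    rw [pderiv0_sum_sep, eval_sum_sep]
    have : (0 : ℝ) = r * ∑ p, c p * e1 p := by rw [S10, mul_zero]
    rw [this, Finset.mul_sum]
    refine Finset.sum_congr rfl fun p _ => ?_
    rw [A1, B0, hc]; ring
  have F01 : MvPolynomial.eval pt (pderiv 1 (pull e1 e2 a g1 g2)) = 0 := by
    unfold pull
    rw [pderiv1_sum_sep, eval_sum_sep]
    have : (0 : ℝ) = r' * ∑ p, c p * e2 p := by rw [S01, mul_zero]
    rw [this, Finset.mul_sum]
    refine Finset.sum_congr rfl fun p _ => ?_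
    rw [A0, B1, hc]; ring
  have F20 : MvPolynomial.eval pt (pderiv 0 (pderiv 0 (pull e1 e2 a g1 g2))) = r ^ 2 * S20 := by
    unfold pull
    rw [pderiv0_sum_sep, pderiv0_sum_sep, eval_sum_sep]
    have : r ^ 2 * S20 = r ^ 2 * S20 + (s - r ^ 2) * ∑ p, c p * e1 p := by
      rw [S10, mul_zero, add_zero]
    rw [this, hS20, Finset.mul_sum, Finset.mul_sum, ← Finset.sum_add_distrib]
    refine Finset.sum_congr rfl fun p _ => ?_
    rw [A2, B0, hc]; ring
  have F11 : MvPolynomial.eval pt (∑ p, C (a p) * sep (Polynomial.derivative (g1 ^ e1 p))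
      (Polynomial.derivative (g2 ^ e2 p))) = r * r' * S11 := by
    rw [eval_sum_sep, hS11, Finset.mul_sum]
    refine Finset.sum_congr rfl fun p _ => ?_
    rw [A1, B1, hc]; ring
  have F11a : MvPolynomial.eval pt (pderiv 0 (pderiv 1 (pull e1 e2 a g1 g2))) = r * r' * S11 := by
    unfold pull
    rw [pderiv1_sum_sep, pderiv0_sum_sep, F11]
  have F11b : MvPolynomial.eval pt (pderiv 1 (pderiv 0 (pull e1 e2 a g1 g2))) = r * r' * S11 := by
    unfold pull
    rw [pderiv0_sum_sep, pderiv1_sum_sep, F11]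
  have F02 : MvPolynomial.eval pt (pderiv 1 (pderiv 1 (pull e1 e2 a g1 g2))) = r' ^ 2 * S02 := by
    unfold pull
    rw [pderiv1_sum_sep, pderiv1_sum_sep, eval_sum_sep]
    have : r' ^ 2 * S02 = r' ^ 2 * S02 + (s' - r' ^ 2) * ∑ p, c p * e2 p := by
      rw [S01, mul_zero, add_zero]
    rw [this, hS02, Finset.mul_sum, Finset.mul_sum, ← Finset.sum_add_distrib]
    refine Finset.sum_congr rfl fun p _ => ?_
    rw [A0, B2, hc]; ring
  have F30 : MvPolynomial.eval pt (pderiv 0 (pderiv 0 (pderiv 0 (pull e1 e2 a g1 g2)))) =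
      r ^ 3 * S30 + 3 * r * (s - r ^ 2) * S20 := by
    unfold pull
    rw [pderiv0_sum_sep, pderiv0_sum_sep, pderiv0_sum_sep, eval_sum_sep]
    have : r ^ 3 * S30 + 3 * r * (s - r ^ 2) * S20 = r ^ 3 * S30 + 3 * r * (s - r ^ 2) * S20 +
        (2 * r ^ 3 - 3 * r * s + w) * ∑ p, c p * e1 p := by
      rw [S10, mul_zero, add_zero]
    rw [this, hS30, hS20, Finset.mul_sum, Finset.mul_sum, Finset.mul_sum,
      ← Finset.sum_add_distrib, ← Finset.sum_add_distrib]
    refine Finset.sum_congr rfl fun p _ => ?_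
    rw [A3, B0, hc]; ring
  have F03 : MvPolynomial.eval pt (pderiv 1 (pderiv 1 (pderiv 1 (pull e1 e2 a g1 g2)))) =
      r' ^ 3 * S03 + 3 * r' * (s' - r' ^ 2) * S02 := by
    unfold pull
    rw [pderiv1_sum_sep, pderiv1_sum_sep, pderiv1_sum_sep, eval_sum_sep]
    have : r' ^ 3 * S03 + 3 * r' * (s' - r' ^ 2) * S02 =
        r' ^ 3 * S03 + 3 * r' * (s' - r' ^ 2) * S02 +
        (2 * r' ^ 3 - 3 * r' * s' + w') * ∑ p, c p * e2 p := by
      rw [S01, mul_zero, add_zero]
    rw [this, hS03, hS02, Finset.mul_sum, Finset.mul_sum, Finset.mul_sum,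
      ← Finset.sum_add_distrib, ← Finset.sum_add_distrib]
    refine Finset.sum_congr rfl fun p _ => ?_
    rw [A0, B3, hc]; ring
  have F21 : MvPolynomial.eval pt (∑ p, C (a p) *
      sep (Polynomial.derivative (Polynomial.derivative (g1 ^ e1 p)))
      (Polynomial.derivative (g2 ^ e2 p))) = r' * (r ^ 2 * S21 + (s - r ^ 2) * S11) := by
    rw [eval_sum_sep, hS11, hS21, Finset.mul_sum, Finset.mul_sum, ← Finset.sum_add_distrib,
      Finset.mul_sum]
    refine Finset.sum_congr rfl fun p _ => ?_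
    rw [A2, B1, hc]; ring
  have F12 : MvPolynomial.eval pt (∑ p, C (a p) *
      sep (Polynomial.derivative (g1 ^ e1 p))
      (Polynomial.derivative (Polynomial.derivative (g2 ^ e2 p)))) =
      r * (r' ^ 2 * S12 + (s' - r' ^ 2) * S11) := by
    rw [eval_sum_sep, hS11, hS12, Finset.mul_sum, Finset.mul_sum, ← Finset.sum_add_distrib,
      Finset.mul_sum]
    refine Finset.sum_congr rfl fun p _ => ?_
    rw [A1, B2, hc]; ring
  have F21a : MvPolynomial.eval pt (pderiv 0 (pderiv 0 (pderiv 1 (pull e1 e2 a g1 g2)))) =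
      r' * (r ^ 2 * S21 + (s - r ^ 2) * S11) := by
    unfold pull
    rw [pderiv1_sum_sep, pderiv0_sum_sep, pderiv0_sum_sep, F21]
  have F21b : MvPolynomial.eval pt (pderiv 0 (pderiv 1 (pderiv 0 (pull e1 e2 a g1 g2)))) =
      r' * (r ^ 2 * S21 + (s - r ^ 2) * S11) := by
    unfold pull
    rw [pderiv0_sum_sep, pderiv1_sum_sep, pderiv0_sum_sep, F21]
  have F21c : MvPolynomial.eval pt (pderiv 1 (pderiv 0 (pderiv 0 (pull e1 e2 a g1 g2)))) =
      r' * (r ^ 2 * S21 + (s - r ^ 2) * S11) := by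
    unfold pull
    rw [pderiv0_sum_sep, pderiv0_sum_sep, pderiv1_sum_sep, F21]
  have F12a : MvPolynomial.eval pt (pderiv 0 (pderiv 1 (pderiv 1 (pull e1 e2 a g1 g2)))) =
      r * (r' ^ 2 * S12 + (s' - r' ^ 2) * S11) := by
    unfold pull
    rw [pderiv1_sum_sep, pderiv1_sum_sep, pderiv0_sum_sep, F12]
  have F12b : MvPolynomial.eval pt (pderiv 1 (pderiv 0 (pderiv 1 (pull e1 e2 a g1 g2)))) =
      r * (r' ^ 2 * S12 + (s' - r' ^ 2) * S11) := by
    unfold pull
    rw [pderiv1_sum_sep, pderiv0_sum_sep, pderiv1_sum_sep, F12]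
  have F12c : MvPolynomial.eval pt (pderiv 1 (pderiv 1 (pderiv 0 (pull e1 e2 a g1 g2)))) =
      r * (r' ^ 2 * S12 + (s' - r' ^ 2) * S11) := by
    unfold pull
    rw [pderiv0_sum_sep, pderiv1_sum_sep, pderiv1_sum_sep, F12]
  refine ⟨F00, ?_, ?_, ![n1 / r, n2 / r'], ?_, ?_, ?_⟩
  · intro i
    fin_cases i
    · exact F10
    · exact F01
  · rcases hess with h | h | h
    · exact ⟨0, 0, by rw [F20]; exact mul_ne_zero (pow_ne_zero 2 hr0) h⟩
    · exact ⟨0, 1, by rw [F11a]; exact mul_ne_zero (mul_ne_zero hr0 hr0') h⟩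
    · exact ⟨1, 1, by rw [F02]; exact mul_ne_zero (pow_ne_zero 2 hr0') h⟩
  · intro hv
    have v0 := congrFun hv 0
    have v1 := congrFun hv 1
    simp only [Matrix.cons_val_zero, Matrix.cons_val_one, Pi.zero_apply,
      div_eq_zero_iff, hr0, hr0', or_false] at v0 v1
    apply K3
    rw [v0, v1]; ring
  · intro i
    rw [Fin.sum_univ_two]
    fin_cases i
    · simp only [Fin.zero_eta, Matrix.cons_val_zero, Matrix.cons_val_one]
      rw [F20, F11a]
      field_simp
      linear_combination r * K1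
    · simp only [Fin.mk_one, Matrix.cons_val_zero, Matrix.cons_val_one]
      rw [F11b, F02]
      field_simp
      linear_combination r' * K2
  · simp only [Fin.sum_univ_two, Matrix.cons_val_zero, Matrix.cons_val_one]
    rw [F30, F21a, F21b, F21c, F12a, F12b, F12c, F03]
    intro h
    apply K3
    have h' : n1 ^ 3 * S30 + 3 * n1 ^ 2 * n2 * S21 + 3 * n1 * n2 ^ 2 * S12 + n2 ^ 3 * S03 +
      3 * n1 ^ 2 * (s - r ^ 2) / r ^ 2 * (n1 * S20 + n2 * S11) +
      3 * n2 ^ 2 * (s' - r' ^ 2) / r' ^ 2 * (n1 * S11 + n2 * S02) = 0 := by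
      rw [← h]
      field_simp
      ring
    rw [K1, K2] at h'
    linarith

end Pool.Agent.helper5.Cusp
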